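import Pool.Agent.Y342.SK.Sym

/-!
# A block construction of Hadamard matrices of order `4 (q + 2 s)`, `q = 2 s m + 1`

The inner part has the form `U ⊗ J + V ⊗ K`. Here `U = S ⊗ K₁ + I` with a conference matrix of order
`m + 2` without two rows and columns in the place of `S`, and `V = A ⊗ 1 + B ⊗ i + D₁ ⊗ j + D₂ ⊗ k`
with two commuting symmetric matrices `A`, `B` of order `s m` and `A ^ 2 + B ^ 2 = q I - 2 J`. The
border of width `8 s + 4` is described by the structure `Corner`.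
-/

set_option autoImplicit false

namespace Pool.Agent.Helper82.QC

open Finset
open Pool.Agent.H108R3.Had (HasHad)
open Pool.Agent.Y342.SK (Sg)

/-- the identity pattern -/
def de : Fin 4 → Fin 4 → ℤ := ![![1, 0, 0, 0], ![0, 1, 0, 0], ![0, 0, 1, 0], ![0, 0, 0, 1]]

/-- the quaternion unit `i` -/
def ii : Fin 4 → Fin 4 → ℤ := ![![0, 1, 0, 0], ![-1, 0, 0, 0], ![0, 0, 0, -1], ![0, 0, 1, 0]]

/-- the quaternion unit `j` -/
def jj : Fin 4 → Fin 4 → ℤ := ![![0, 0, 1, 0], ![0, 0, 0, 1], ![-1, 0, 0, 0], ![0, -1, 0, 0]]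

/-- the quaternion unit `k` -/
def kk : Fin 4 → Fin 4 → ℤ := ![![0, 0, 0, 1], ![0, 0, -1, 0], ![0, 1, 0, 0], ![-1, 0, 0, 0]]

theorem c_dede : ∀ x x' : Fin 4, ∑ z, de x z * de x' z = de x x' := by decide
theorem c_iiii : ∀ x x' : Fin 4, ∑ z, ii x z * ii x' z = de x x' := by decide
theorem c_jjjj : ∀ x x' : Fin 4, ∑ z, jj x z * jj x' z = de x x' := by decide
theorem c_kkkk : ∀ x x' : Fin 4, ∑ z, kk x z * kk x' z = de x x' := by decide
theorem c_deii : ∀ x x' : Fin 4, ∑ z, (de x z * ii x' z + ii x z * de x' z) = 0 := by decide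
theorem c_dejj : ∀ x x' : Fin 4, ∑ z, (de x z * jj x' z + jj x z * de x' z) = 0 := by decide
theorem c_dekk : ∀ x x' : Fin 4, ∑ z, (de x z * kk x' z + kk x z * de x' z) = 0 := by decide
theorem c_iijj : ∀ x x' : Fin 4, ∑ z, (ii x z * jj x' z + jj x z * ii x' z) = 0 := by decide
theorem c_iikk : ∀ x x' : Fin 4, ∑ z, (ii x z * kk x' z + kk x z * ii x' z) = 0 := by decide
theorem c_jjkk : ∀ x x' : Fin 4, ∑ z, (jj x z * kk x' z + kk x z * jj x' z) = 0 := by decide

theorem de_eq (a b : Fin 4) : de a b = if a = b then 1 else 0 := by revert a b; decide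

theorem pat : ∀ x x' : Fin 4,
    (x = x' ∧ de x x' = 1 ∧ ii x x' = 0 ∧ jj x x' = 0 ∧ kk x x' = 0) ∨
    (x ≠ x' ∧ de x x' = 0 ∧ (ii x x' = 1 ∨ ii x x' = -1) ∧ jj x x' = 0 ∧ kk x x' = 0) ∨
    (x ≠ x' ∧ de x x' = 0 ∧ ii x x' = 0 ∧ (jj x x' = 1 ∨ jj x x' = -1) ∧ kk x x' = 0) ∨
    (x ≠ x' ∧ de x x' = 0 ∧ ii x x' = 0 ∧ jj x x' = 0 ∧ (kk x x' = 1 ∨ kk x x' = -1)) := by
  decide

/-- sign of a pair of booleans -/
def ka (s t : Bool) : ℤ := if s = t then 1 else -1

/-- sign of a boolean -/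
def kb (s : Bool) : ℤ := if s then 1 else -1

theorem Sg.mul' {x y : ℤ} (hx : Sg x) (hy : Sg y) : Sg (x * y) := by
  rcases hx with rfl | rfl <;> rcases hy with rfl | rfl <;> simp [Sg]

theorem Sg.neg' {x : ℤ} (hx : Sg x) : Sg (-x) := by
  rcases hx with rfl | rfl <;> simp [Sg]

/-- the border and the corner; `α` is the group of order `s` -/
structure Corner (α : Type) [AddCommGroup α] [Fintype α] [DecidableEq α] (b : ℕ) (e : ℤ) where
  K : α × Fin 4 → α × Fin 4 → ℤ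
  d1 : α → ℤ
  d2 : α → ℤ
  g1 : ℤ
  g2 : ℤ
  F : Bool → α × Fin 4 → Fin b → ℤ
  Y : Fin 4 → Fin b → ℤ
  F' : Bool → α × Fin 4 → Fin b → ℤ
  Y' : Fin 4 → Fin b → ℤ
  P : Fin b → Fin b → ℤ
  he : e * e = 1
  Ks : ∀ p p', K p' p = - e * K p p'
  KK : ∀ p p', ∑ z, K p z * K p' z = if p = p' then 2 * (Fintype.card α : ℤ) else 0
  Kd : ∀ p p', jj p.2 p'.2 = 0 → kk p.2 p'.2 = 0 → K p p' = 0
  Ke : ∀ p p', (jj p.2 p'.2 ≠ 0 ∨ kk p.2 p'.2 ≠ 0) → (K p p' = 1 ∨ K p p' = -1)
  d1e : ∀ t, d1 (-t) = d1 t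
  d2e : ∀ t, d2 (-t) = d2 t
  d1s : ∀ t, d1 t = 1 ∨ d1 t = -1
  d2s : ∀ t, d2 t = 1 ∨ d2 t = -1
  dd : ∀ a a', ∑ z, d1 (z - a) * d1 (z - a') + ∑ z, d2 (z - a) * d2 (z - a') =
    if a = a' then 2 * (Fintype.card α : ℤ) else 0
  d1r : ∑ t, d1 t = g1
  d2r : ∑ t, d2 t = g2
  P1 : ∀ i j, P i j = 1 ∨ P i j = -1
  F1 : ∀ r p z, (F r p z + Y p.2 z = 1 ∨ F r p z + Y p.2 z = -1) ∧
    (F r p z - Y p.2 z = 1 ∨ F r p z - Y p.2 z = -1)
  F1' : ∀ r p z, (F' r p z + Y' p.2 z = 1 ∨ F' r p z + Y' p.2 z = -1) ∧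
    (F' r p z - Y' p.2 z = 1 ∨ F' r p z - Y' p.2 z = -1)
  FF : ∀ r p r' p', ∑ z, F r p z * F r' p' z =
    if r = r' ∧ p = p' then 8 * (Fintype.card α : ℤ) else 0
  FY : ∀ r p x, ∑ z, F r p z * Y x z = 0
  YY : ∀ x x', ∑ z, Y x z * Y x' z = if x = x' then 4 else 0
  PP : ∀ i j, ∑ z, P i z * P j z = if i = j then 8 * (Fintype.card α : ℤ) + 4 else 0
  bord : ∀ i j, ∑ p, (F' true p i * F' true p j + F' false p i * F' false p j) +
    2 * (Fintype.card α : ℤ) * ∑ x, Y' x i * Y' x j =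
    if i = j then 8 * (Fintype.card α : ℤ) else 0
  PF : ∀ i r p, ∑ z, P i z * F r p z + ∑ p', (- e * kb r * (F' true p' i + F' false p' i) -
    (F' true p' i - F' false p' i)) * K p p' + 2 * F' r p i = 0
  PY : ∀ i x, ∑ z, P i z * Y x z + 2 * ∑ x', Y' x' i *
    (- de x x' + g1 * jj x x' + g2 * kk x x') = 0

/-- the data of the construction -/
structure Data (α : Type) [AddCommGroup α] [Fintype α] [DecidableEq α] (e : ℤ)
    (R : Type) [Fintype R] [DecidableEq R] where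
  S : R → R → ℤ
  c : R → Bool
  A : R × α → R × α → ℤ
  B : R × α → R × α → ℤ
  S0 : ∀ x, S x x = 0
  S1 : ∀ x y, x ≠ y → Sg (S x y)
  Ss : ∀ x y, S y x = e * S x y
  SS : ∀ x y, ∑ z, S x z * S y z =
    (if x = y then (Fintype.card R : ℤ) + 1 else 0) - 1 - kb (c x) * kb (c y)
  Sr : ∀ x, ∑ y, S x y = - e * kb (c x)
  Sc : ∀ x, ∑ y, S x y * kb (c y) = -1
  cs : ∑ y, kb (c y) = 0
  A0 : ∀ x, A x x = 0
  A1 : ∀ x y, x ≠ y → Sg (A x y)
  B1 : ∀ x y, Sg (B x y)
  As : ∀ x y, A y x = A x y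
  Bs : ∀ x y, B y x = B x y
  sq : ∀ x y, ∑ z, A x z * A y z + ∑ z, B x z * B y z =
    (if x = y then 2 * (Fintype.card α : ℤ) * (Fintype.card R : ℤ) + 1 else 0) - 2
  com : ∀ x y, ∑ z, A x z * B y z = ∑ z, B x z * A y z
  Ar : ∀ x, ∑ y, A x y = -1
  Br : ∀ x, ∑ y, B x y = 0
  Ac : ∀ r a r' a' t, A (r, a + t) (r', a' + t) = A (r, a) (r', a')
  Bc : ∀ r a r' a' t, B (r, a + t) (r', a' - t) = B (r, a) (r', a')

/-! ### block matrices `I ⊗ d` -/

section dl

variable {α : Type} [AddCommGroup α] [Fintype α] [DecidableEq α]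
variable {R : Type} [Fintype R] [DecidableEq R]

/-- the matrix `I ⊗ d` -/
def dl (d : α → ℤ) (p p' : R × α) : ℤ := (if p.1 = p'.1 then 1 else 0) * d (p'.2 - p.2)

omit [DecidableEq α] in
theorem dl_left (d : α → ℤ) (x : R × α) (f : R × α → ℤ) :
    ∑ z, dl d x z * f z = ∑ b, d (b - x.2) * f (x.1, b) := by
  obtain ⟨r, a⟩ := x
  rw [Fintype.sum_prod_type]
  have h1 : ∀ z : R, ∑ b : α, dl d (r, a) (z, b) * f (z, b) =
      if r = z then ∑ b, d (b - a) * f (z, b) else 0 := by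
    intro z
    by_cases h : r = z <;> simp [dl, h]
  rw [sum_congr rfl fun z _ => h1 z, sum_ite_eq, if_pos (mem_univ _)]

omit [DecidableEq α] in
theorem dl_com_A {d : α → ℤ} (hd : ∀ t, d (-t) = d t) {A : R × α → R × α → ℤ}
    (As : ∀ x y, A y x = A x y)
    (Ac : ∀ r a r' a' t, A (r, a + t) (r', a' + t) = A (r, a) (r', a')) (x y : R × α) :
    ∑ z, A x z * dl d y z = ∑ z, dl d x z * A y z := by
  have h0 : ∑ z, A x z * dl d y z = ∑ z, dl d y z * A x z := sum_congr rfl fun z _ => mul_comm _ _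
  rw [h0, dl_left, dl_left]
  obtain ⟨r, a⟩ := x
  obtain ⟨r', a'⟩ := y
  rw [← Equiv.sum_comp (Equiv.subLeft (a + a'))]
  refine sum_congr rfl fun b _ => ?_
  simp only [Equiv.subLeft_apply]
  have h1 : a + a' - b - a' = -(b - a) := by abel
  rw [h1, hd, As (r, b) (r', a')]
  have h2 := Ac r b r' a' (a - b)
  have h3 : b + (a - b) = a := by abel
  have h4 : a' + (a - b) = a + a' - b := by abel
  rw [h3, h4] at h2
  rw [h2]

omit [DecidableEq α] in
theorem dl_com_B {d : α → ℤ} {B : R × α → R × α → ℤ}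
    (Bs : ∀ x y, B y x = B x y)
    (Bc : ∀ r a r' a' t, B (r, a + t) (r', a' - t) = B (r, a) (r', a')) (x y : R × α) :
    ∑ z, B x z * dl d y z = ∑ z, dl d x z * B y z := by
  have h0 : ∑ z, B x z * dl d y z = ∑ z, dl d y z * B x z := sum_congr rfl fun z _ => mul_comm _ _
  rw [h0, dl_left, dl_left]
  obtain ⟨r, a⟩ := x
  obtain ⟨r', a'⟩ := y
  rw [← Equiv.sum_comp (Equiv.subRight (a - a'))]
  refine sum_congr rfl fun b _ => ?_
  simp only [Equiv.subRight_apply]
  have h1 : b - (a - a') - a' = b - a := by abel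
  rw [h1, Bs (r, b) (r', a')]
  have h2 := Bc r a r' (b - (a - a')) (b - a)
  have h3 : a + (b - a) = b := by abel
  have h4 : b - (a - a') - (b - a) = a' := by abel
  rw [h3, h4] at h2
  rw [h2]

omit [DecidableEq α] in
theorem dl_mul (d d' : α → ℤ) (x y : R × α) : ∑ z, dl d x z * dl d' y z =
    (if x.1 = y.1 then 1 else 0) * ∑ z, d (z - x.2) * d' (z - y.2) := by
  rw [dl_left]
  obtain ⟨r, a⟩ := x
  obtain ⟨r', a'⟩ := y
  by_cases h : r = r'
  · subst h; simp [dl]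
  · simp [dl, h, Ne.symm h]

omit [DecidableEq α] in
theorem dl_com {d d' : α → ℤ} (hd : ∀ t, d (-t) = d t) (hd' : ∀ t, d' (-t) = d' t)
    (x y : R × α) : ∑ z, dl d x z * dl d' y z = ∑ z, dl d' x z * dl d y z := by
  rw [dl_mul, dl_mul]
  congr 1
  rw [← Equiv.sum_comp (Equiv.subLeft (x.2 + y.2))]
  refine sum_congr rfl fun b _ => ?_
  simp only [Equiv.subLeft_apply]
  have h1 : x.2 + y.2 - b - x.2 = -(b - y.2) := by abel
  have h2 : x.2 + y.2 - b - y.2 = -(b - x.2) := by abel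
  rw [h1, h2, hd, hd']
  ring

omit [DecidableEq α] in
theorem dl_row (d : α → ℤ) (x : R × α) : ∑ z, dl d x z = ∑ t, d t := by
  have h1 := dl_left d x (fun _ => 1)
  simp only [mul_one] at h1
  rw [h1]
  have h2 := Equiv.sum_comp (Equiv.subRight x.2) d
  simp only [Equiv.subRight_apply] at h2
  exact h2

end dl

namespace Data

variable {α : Type} [AddCommGroup α] [Fintype α] [DecidableEq α] {b : ℕ} {e : ℤ}
variable {R : Type} [Fintype R] [DecidableEq R] (D : Data α e R) (C : Corner α b e)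

/-- the part with the conference matrix; the index is `(r, a, x)` -/
def U (p p' : R × α × Fin 4) : ℤ :=
  D.S p.1 p'.1 * C.K p.2 p'.2 + (if p = p' then 1 else 0)

/-- the part with `A` and `B` -/
def V (p p' : R × α × Fin 4) : ℤ :=
  D.A (p.1, p.2.1) (p'.1, p'.2.1) * de p.2.2 p'.2.2 +
    D.B (p.1, p.2.1) (p'.1, p'.2.1) * ii p.2.2 p'.2.2 +
    dl C.d1 (p.1, p.2.1) (p'.1, p'.2.1) * jj p.2.2 p'.2.2 +
    dl C.d2 (p.1, p.2.1) (p'.1, p'.2.1) * kk p.2.2 p'.2.2

theorem UU (p p' : R × α × Fin 4) : ∑ z : R × α × Fin 4, D.U C p z * D.U C p' z =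
    ((if p.1 = p'.1 then (Fintype.card R : ℤ) + 1 else 0) - 1 - kb (D.c p.1) * kb (D.c p'.1)) *
      (if p.2 = p'.2 then 2 * (Fintype.card α : ℤ) else 0) + (if p = p' then 1 else 0) := by
  have h1 : ∀ z : R × α × Fin 4, D.U C p z * D.U C p' z =
      (D.S p.1 z.1 * D.S p'.1 z.1) * (C.K p.2 z.2 * C.K p'.2 z.2) +
      (if p' = z then D.S p.1 z.1 * C.K p.2 z.2 else 0) +
      (if p = z then D.S p'.1 z.1 * C.K p'.2 z.2 else 0) +
      (if p = z then (if p' = z then 1 else 0) else 0) := by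
    intro z
    simp only [U]
    split_ifs <;> ring
  rw [sum_congr rfl fun z _ => h1 z, sum_add_distrib, sum_add_distrib, sum_add_distrib,
    sum_ite_eq, sum_ite_eq, sum_ite_eq, if_pos (mem_univ _), if_pos (mem_univ _),
    if_pos (mem_univ _), Fintype.sum_prod_type]
  simp only [← mul_sum, C.KK]
  rw [← sum_mul, D.SS, D.Ss p.1 p'.1, C.Ks p.2 p'.2]
  have h2 : (if p' = p then (1 : ℤ) else 0) = if p = p' then 1 else 0 := by
    simp only [eq_comm]
  rw [h2]
  have h3 := C.he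
  linear_combination (- (D.S p.1 p'.1 * C.K p.2 p'.2)) * h3

theorem inner_V (p r s t p' r' s' t' : ℤ) (x y : R × α) :
    ∑ z, (D.A x z * p + D.B x z * r + dl C.d1 x z * s + dl C.d2 x z * t) *
      (D.A y z * p' + D.B y z * r' + dl C.d1 y z * s' + dl C.d2 y z * t') =
    (p * p') * (∑ z, D.A x z * D.A y z) + (r * r') * (∑ z, D.B x z * D.B y z) +
      (s * s') * (∑ z, dl C.d1 x z * dl C.d1 y z) + (t * t') * (∑ z, dl C.d2 x z * dl C.d2 y z) +
      (p * r' + r * p') * (∑ z, D.A x z * D.B y z) +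
      (p * s' + s * p') * (∑ z, D.A x z * dl C.d1 y z) +
      (p * t' + t * p') * (∑ z, D.A x z * dl C.d2 y z) +
      (r * s' + s * r') * (∑ z, D.B x z * dl C.d1 y z) +
      (r * t' + t * r') * (∑ z, D.B x z * dl C.d2 y z) +
      (s * t' + t * s') * (∑ z, dl C.d1 x z * dl C.d2 y z) := by
  have h1 : ∀ z, (D.A x z * p + D.B x z * r + dl C.d1 x z * s + dl C.d2 x z * t) *
      (D.A y z * p' + D.B y z * r' + dl C.d1 y z * s' + dl C.d2 y z * t') =
      (p * p') * (D.A x z * D.A y z) + (r * r') * (D.B x z * D.B y z) +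
      (s * s') * (dl C.d1 x z * dl C.d1 y z) + (t * t') * (dl C.d2 x z * dl C.d2 y z) +
      (p * r') * (D.A x z * D.B y z) + (r * p') * (D.B x z * D.A y z) +
      (p * s') * (D.A x z * dl C.d1 y z) + (s * p') * (dl C.d1 x z * D.A y z) +
      (p * t') * (D.A x z * dl C.d2 y z) + (t * p') * (dl C.d2 x z * D.A y z) +
      (r * s') * (D.B x z * dl C.d1 y z) + (s * r') * (dl C.d1 x z * D.B y z) +
      (r * t') * (D.B x z * dl C.d2 y z) + (t * r') * (dl C.d2 x z * D.B y z) +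
      (s * t') * (dl C.d1 x z * dl C.d2 y z) + (t * s') * (dl C.d2 x z * dl C.d1 y z) := by
    intro z; ring
  rw [sum_congr rfl fun z _ => h1 z]
  simp only [sum_add_distrib, ← mul_sum]
  rw [← D.com x y, ← dl_com_A C.d1e D.As D.Ac x y, ← dl_com_A C.d2e D.As D.Ac x y,
    ← dl_com_B D.Bs D.Bc x y, ← dl_com_B (d := C.d2) D.Bs D.Bc x y, dl_com C.d2e C.d1e x y]
  ring

theorem VV (p p' : R × α × Fin 4) : ∑ z : R × α × Fin 4, D.V C p z * D.V C p' z =
    (if p = p' then 2 * (Fintype.card α : ℤ) * (Fintype.card R : ℤ) + 1 +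
      2 * (Fintype.card α : ℤ) else 0) - (if p.2.2 = p'.2.2 then 2 else 0) := by
  obtain ⟨r, a, x⟩ := p
  obtain ⟨r', a', x'⟩ := p'
  have h0 : ∑ z : R × α × Fin 4, D.V C (r, a, x) z * D.V C (r', a', x') z =
      ∑ y : Fin 4, ∑ z : R × α,
        D.V C (r, a, x) (z.1, z.2, y) * D.V C (r', a', x') (z.1, z.2, y) := by
    rw [← Equiv.sum_comp (Equiv.prodAssoc R α (Fin 4)), Fintype.sum_prod_type_right]
    rfl
  rw [h0]
  simp only [V, Prod.mk.eta]
  rw [sum_congr rfl fun c _ => D.inner_V C _ _ _ _ _ _ _ _ (r, a) (r', a')]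
  have h1 := c_deii x x'
  have h2 := c_dejj x x'
  have h3 := c_dekk x x'
  have h4 := c_iijj x x'
  have h5 := c_iikk x x'
  have h6 := c_jjkk x x'
  have h7 := D.sq (r, a) (r', a')
  simp only [sum_add_distrib, ← sum_mul, c_dede, c_iiii, c_jjjj, c_kkkk] at h1 h2 h3 h4 h5 h6 ⊢
  rw [h1, h2, h3, h4, h5, h6]
  have h8 : ∑ z, dl C.d1 (r, a) z * dl C.d1 (r', a') z +
      ∑ z, dl C.d2 (r, a) z * dl C.d2 (r', a') z =
      if (r, a) = (r', a') then 2 * (Fintype.card α : ℤ) else 0 := by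
    rw [dl_mul, dl_mul, ← mul_add, C.dd]
    by_cases hr : r = r' <;> by_cases ha : a = a' <;> simp [hr, ha]
  have h9 : de x x' * (∑ z, D.A (r, a) z * D.A (r', a') z) +
      de x x' * (∑ z, D.B (r, a) z * D.B (r', a') z) +
      de x x' * (∑ z, dl C.d1 (r, a) z * dl C.d1 (r', a') z) +
      de x x' * (∑ z, dl C.d2 (r, a) z * dl C.d2 (r', a') z) = de x x' *
      ((if (r, a) = (r', a') then
        2 * (Fintype.card α : ℤ) * (Fintype.card R : ℤ) + 1 else 0) - 2 +
        if (r, a) = (r', a') then 2 * (Fintype.card α : ℤ) else 0) := by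
    rw [← h7, ← h8]; ring
  rw [h9, de_eq]
  simp only [Prod.mk.injEq]
  by_cases h1 : r = r' <;> by_cases h2 : a = a' <;> by_cases h3 : x = x' <;>
    simp [h1, h2, h3] <;> ring

theorem UV_sign (p p' : R × α × Fin 4) :
    Sg (D.U C p p' + D.V C p p') ∧ Sg (D.U C p p' - D.V C p p') := by
  obtain ⟨r, a, x⟩ := p
  obtain ⟨r', a', x'⟩ := p'
  have key : ∀ u v : ℤ, (u = 0 ∧ Sg v) ∨ (Sg u ∧ v = 0) → Sg (u + v) ∧ Sg (u - v) := by
    rintro u v (⟨rfl, h⟩ | ⟨h, rfl⟩)
    · exact ⟨by rwa [zero_add], by rw [zero_sub]; exact Sg.neg' h⟩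
    · exact ⟨by rwa [add_zero], by rwa [sub_zero]⟩
  apply key
  rcases pat x x' with ⟨hx, h1, h2, h3, h4⟩ | ⟨hx, h1, h2, h3, h4⟩ | ⟨hx, h1, h2, h3, h4⟩ |
    ⟨hx, h1, h2, h3, h4⟩
  · subst hx
    have hK : C.K (a, x) (a', x) = 0 := C.Kd _ _ h3 h4
    by_cases hra : (r, a) = (r', a')
    · right
      obtain ⟨rfl, rfl⟩ := Prod.mk.injEq _ _ _ _ ▸ hra
      simp only [U, V, h1, h2, h3, h4, hK, D.A0, if_true]
      exact ⟨by left; ring, by ring⟩
    · left
      have hA := D.A1 (r, a) (r', a') hra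
      have hne : ¬ ((r, a, x) = (r', a', x)) := by
        intro h
        simp only [Prod.mk.injEq] at h hra
        exact hra ⟨h.1, h.2.1⟩
      simp only [U, V, h1, h2, h3, h4, hK, if_neg hne]
      refine ⟨by ring, ?_⟩
      simpa using hA
  · left
    have hK : C.K (a, x) (a', x') = 0 := C.Kd _ _ h3 h4
    have hne : ¬ ((r, a, x) = (r', a', x')) := by
      intro h
      simp only [Prod.mk.injEq] at h
      exact hx h.2.2
    simp only [U, V, h1, h3, h4, hK, if_neg hne]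
    refine ⟨by ring, ?_⟩
    have hB := Sg.mul' (D.B1 (r, a) (r', a')) h2
    simpa using hB
  · have hK := C.Ke (a, x) (a', x') (Or.inl (by
      intro h0
      simp only at h0
      rw [h0] at h3
      norm_num at h3))
    have hne : ¬ ((r, a, x) = (r', a', x')) := by
      intro h
      simp only [Prod.mk.injEq] at h
      exact hx h.2.2
    by_cases hr : r = r'
    · left
      subst hr
      simp only [U, V, h1, h2, h4, if_neg hne, D.S0, dl, if_true, one_mul]
      refine ⟨by ring, ?_⟩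
      have := Sg.mul' (C.d1s (a' - a)) h3
      simpa using this
    · right
      simp only [U, V, h1, h2, h4, if_neg hne, dl, if_neg hr, zero_mul]
      refine ⟨?_, by ring⟩
      have := Sg.mul' (D.S1 r r' hr) hK
      simpa using this
  · have hK := C.Ke (a, x) (a', x') (Or.inr (by
      intro h0
      simp only at h0
      rw [h0] at h4
      norm_num at h4))
    have hne : ¬ ((r, a, x) = (r', a', x')) := by
      intro h
      simp only [Prod.mk.injEq] at h
      exact hx h.2.2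
    by_cases hr : r = r'
    · left
      subst hr
      simp only [U, V, h1, h2, h3, if_neg hne, D.S0, dl, if_true, one_mul]
      refine ⟨by ring, ?_⟩
      have := Sg.mul' (C.d2s (a' - a)) h4
      simpa using this
    · right
      simp only [U, V, h1, h2, h3, if_neg hne, dl, if_neg hr, zero_mul]
      refine ⟨?_, by ring⟩
      have := Sg.mul' (D.S1 r r' hr) hK
      simpa using this

/-- the matrix -/
def M : Fin b ⊕ ((R × α × Fin 4) × Bool) → Fin b ⊕ ((R × α × Fin 4) × Bool) → ℤ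
  | Sum.inl i, Sum.inl j => C.P i j
  | Sum.inl i, Sum.inr r => C.F' (D.c r.1.1) r.1.2 i + kb r.2 * C.Y' r.1.2.2 i
  | Sum.inr r, Sum.inl j => C.F (D.c r.1.1) r.1.2 j + kb r.2 * C.Y r.1.2.2 j
  | Sum.inr r, Sum.inr r' => D.U C r.1 r'.1 + ka r.2 r'.2 * D.V C r.1 r'.1

theorem M_sign (p p' : Fin b ⊕ ((R × α × Fin 4) × Bool)) :
    D.M C p p' = 1 ∨ D.M C p p' = -1 := by
  rcases p with i | ⟨⟨r, p⟩, s⟩ <;> rcases p' with j | ⟨⟨r', p'⟩, t⟩
  · exact C.P1 i j
  · have h := C.F1' (D.c r') p' i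
    cases t
    · simp only [M, kb, Bool.false_eq_true, if_false, neg_one_mul, ← sub_eq_add_neg]; exact h.2
    · simp only [M, kb, if_true, one_mul]; exact h.1
  · have h := C.F1 (D.c r) p j
    cases s
    · simp only [M, kb, Bool.false_eq_true, if_false, neg_one_mul, ← sub_eq_add_neg]; exact h.2
    · simp only [M, kb, if_true, one_mul]; exact h.1
  · have h := D.UV_sign C (r, p) (r', p')
    simp only [M, ka]
    split_ifs
    · rw [one_mul]; exact h.1
    · rw [neg_one_mul, ← sub_eq_add_neg]; exact h.2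

omit [DecidableEq R] in
theorem two_kb (f : Bool → ℤ) (s : Bool) :
    2 * f s = (f true + f false) + kb s * (f true - f false) := by
  cases s <;> simp [kb] <;> ring

theorem S_sum (f : Bool → ℤ) (r : R) : 2 * ∑ z, f (D.c z) * D.S r z =
    - e * kb (D.c r) * (f true + f false) - (f true - f false) := by
  have h1 : ∀ z, 2 * (f (D.c z) * D.S r z) =
      (f true + f false) * D.S r z + (f true - f false) * (D.S r z * kb (D.c z)) := by
    intro z
    rw [← mul_assoc, two_kb (f := f) (s := D.c z)]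
    ring
  rw [mul_sum, sum_congr rfl fun z _ => h1 z, sum_add_distrib, ← mul_sum, ← mul_sum, D.Sr, D.Sc]
  ring

theorem c_sum (f : Bool → ℤ) : 2 * ∑ z, f (D.c z) =
    (Fintype.card R : ℤ) * (f true + f false) := by
  rw [mul_sum, sum_congr rfl fun z _ => two_kb (f := f) (s := D.c z), sum_add_distrib, ← sum_mul,
    D.cs, sum_const, card_univ, nsmul_eq_mul]
  ring

theorem U_row (i : Fin b) (p : R × α × Fin 4) :
    2 * ∑ z : R × α × Fin 4, C.F' (D.c z.1) z.2 i * D.U C p z =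
      ∑ p', (- e * kb (D.c p.1) * (C.F' true p' i + C.F' false p' i) -
        (C.F' true p' i - C.F' false p' i)) * C.K p.2 p' + 2 * C.F' (D.c p.1) p.2 i := by
  have h1 : ∀ z : R × α × Fin 4, C.F' (D.c z.1) z.2 i * D.U C p z =
      (C.F' (D.c z.1) z.2 i * D.S p.1 z.1) * C.K p.2 z.2 +
      (if p = z then C.F' (D.c z.1) z.2 i else 0) := by
    intro z
    simp only [U]
    split_ifs <;> ring
  rw [sum_congr rfl fun z _ => h1 z, sum_add_distrib, sum_ite_eq, if_pos (mem_univ _),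
    Fintype.sum_prod_type_right, mul_add, mul_sum]
  congr 1
  refine sum_congr rfl fun z _ => ?_
  change 2 * ∑ x, C.F' (D.c x) z i * D.S p.1 x * C.K p.2 z = _
  rw [← sum_mul, ← mul_assoc, D.S_sum (fun s => C.F' s z i)]

theorem V_row (i : Fin b) (p : R × α × Fin 4) :
    ∑ z : R × α × Fin 4, C.Y' z.2.2 i * D.V C p z =
      ∑ x', C.Y' x' i * (- de p.2.2 x' + C.g1 * jj p.2.2 x' + C.g2 * kk p.2.2 x') := by
  obtain ⟨r, a, x⟩ := p
  rw [← Equiv.sum_comp (Equiv.prodAssoc R α (Fin 4)), Fintype.sum_prod_type_right]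
  refine sum_congr rfl fun z _ => ?_
  have h1 : ∀ w : R × α, D.V C (r, a, x) ((Equiv.prodAssoc R α (Fin 4)) (w, z)) =
      D.A (r, a) w * de x z + D.B (r, a) w * ii x z + dl C.d1 (r, a) w * jj x z +
      dl C.d2 (r, a) w * kk x z := fun w => rfl
  have h2 : ∀ w : R × α, ((Equiv.prodAssoc R α (Fin 4)) (w, z)).2.2 = z := fun w => rfl
  simp only [h1, h2, ← mul_sum, sum_add_distrib, ← sum_mul, D.Ar, D.Br, dl_row, C.d1r, C.d2r]
  ring

theorem inl_inr (i : Fin b) (p : R × α × Fin 4) (s : Bool) :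
    ∑ z : (R × α × Fin 4) × Bool, (C.F' (D.c z.1.1) z.1.2 i + kb z.2 * C.Y' z.1.2.2 i) *
      (D.U C p z.1 + ka s z.2 * D.V C p z.1) =
      (∑ p', (- e * kb (D.c p.1) * (C.F' true p' i + C.F' false p' i) -
        (C.F' true p' i - C.F' false p' i)) * C.K p.2 p' + 2 * C.F' (D.c p.1) p.2 i) +
        kb s * (2 * ∑ x', C.Y' x' i *
          (- de p.2.2 x' + C.g1 * jj p.2.2 x' + C.g2 * kk p.2.2 x')) := by
  rw [Fintype.sum_prod_type]
  have h1 : ∀ z : R × α × Fin 4, ∑ t : Bool, (C.F' (D.c z.1) z.2 i + kb t * C.Y' z.2.2 i) *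
      (D.U C p z + ka s t * D.V C p z) =
      2 * (C.F' (D.c z.1) z.2 i * D.U C p z) + kb s * (2 * (C.Y' z.2.2 i * D.V C p z)) := by
    intro z
    rw [Fintype.sum_bool]
    cases s <;> simp [ka, kb] <;> ring
  rw [sum_congr rfl fun z _ => h1 z, sum_add_distrib, ← mul_sum, ← mul_sum, ← mul_sum, D.U_row,
    D.V_row]

theorem main_row (p p' : Fin b ⊕ ((R × α × Fin 4) × Bool)) :
    ∑ z, D.M C p z * D.M C p' z =
      if p = p' then 4 * (2 * (Fintype.card α : ℤ) * (Fintype.card R : ℤ) + 1 +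
        2 * (Fintype.card α : ℤ)) else 0 := by
  rw [Fintype.sum_sum_type]
  rcases p with i | ⟨p, s⟩ <;> rcases p' with j | ⟨p', s'⟩
  · simp only [M, Sum.inl.injEq]
    have h0 : ∑ z : (R × α × Fin 4) × Bool, (C.F' (D.c z.1.1) z.1.2 i + kb z.2 * C.Y' z.1.2.2 i) *
        (C.F' (D.c z.1.1) z.1.2 j + kb z.2 * C.Y' z.1.2.2 j) =
        (Fintype.card R : ℤ) * (if i = j then 8 * (Fintype.card α : ℤ) else 0) := by
      rw [Fintype.sum_prod_type]
      have h1 : ∀ z : R × α × Fin 4, ∑ t : Bool, (C.F' (D.c z.1) z.2 i + kb t * C.Y' z.2.2 i) *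
          (C.F' (D.c z.1) z.2 j + kb t * C.Y' z.2.2 j) =
          2 * (C.F' (D.c z.1) z.2 i * C.F' (D.c z.1) z.2 j) + 2 * (C.Y' z.2.2 i * C.Y' z.2.2 j) := by
        intro z
        rw [Fintype.sum_bool]
        simp [kb]; ring
      rw [sum_congr rfl fun z _ => h1 z, sum_add_distrib, ← mul_sum, ← mul_sum, ← C.bord]
      have h2 : 2 * ∑ z : R × α × Fin 4, C.F' (D.c z.1) z.2 i * C.F' (D.c z.1) z.2 j =
          (Fintype.card R : ℤ) *
            ∑ p, (C.F' true p i * C.F' true p j + C.F' false p i * C.F' false p j) := by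
        rw [Fintype.sum_prod_type_right, mul_sum, mul_sum]
        exact sum_congr rfl fun z _ => D.c_sum (fun s => C.F' s z i * C.F' s z j)
      have h3 : ∑ z : R × α × Fin 4, C.Y' z.2.2 i * C.Y' z.2.2 j =
          (Fintype.card R : ℤ) * ((Fintype.card α : ℤ) * ∑ x, C.Y' x i * C.Y' x j) := by
        rw [Fintype.sum_prod_type]
        simp only [sum_const, card_univ, nsmul_eq_mul]
        congr 1
        rw [Fintype.sum_prod_type]
        simp only [sum_const, card_univ, nsmul_eq_mul]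
      rw [h2, h3]
      ring
    rw [h0, C.PP]
    by_cases hij : i = j
    · rw [if_pos hij, if_pos hij, if_pos hij]; ring
    · rw [if_neg hij, if_neg hij, if_neg hij]; ring
  · simp only [M, reduceCtorEq, if_false]
    rw [D.inl_inr]
    have h1 : ∀ z, C.P i z * (C.F (D.c p'.1) p'.2 z + kb s' * C.Y p'.2.2 z) =
        C.P i z * C.F (D.c p'.1) p'.2 z + kb s' * (C.P i z * C.Y p'.2.2 z) := fun z => by ring
    rw [sum_congr rfl fun z _ => h1 z, sum_add_distrib, ← mul_sum]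
    have h2 := C.PF i (D.c p'.1) p'.2
    have h3 := C.PY i p'.2.2
    linear_combination h2 + kb s' * h3
  · simp only [M, reduceCtorEq, if_false]
    have h4 := D.inl_inr C j p s
    simp only [mul_comm (C.F' _ _ j + _)] at h4
    rw [h4]
    have h1 : ∀ z, (C.F (D.c p.1) p.2 z + kb s * C.Y p.2.2 z) * C.P j z =
        C.P j z * C.F (D.c p.1) p.2 z + kb s * (C.P j z * C.Y p.2.2 z) := fun z => by ring
    rw [sum_congr rfl fun z _ => h1 z, sum_add_distrib, ← mul_sum]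
    have h2 := C.PF j (D.c p.1) p.2
    have h3 := C.PY j p.2.2
    linear_combination h2 + kb s * h3
  · simp only [M, Sum.inr.injEq]
    have h1 : ∀ z, (C.F (D.c p.1) p.2 z + kb s * C.Y p.2.2 z) *
        (C.F (D.c p'.1) p'.2 z + kb s' * C.Y p'.2.2 z) =
        C.F (D.c p.1) p.2 z * C.F (D.c p'.1) p'.2 z +
        kb s' * (C.F (D.c p.1) p.2 z * C.Y p'.2.2 z) +
        kb s * (C.F (D.c p'.1) p'.2 z * C.Y p.2.2 z) +
        kb s * kb s' * (C.Y p.2.2 z * C.Y p'.2.2 z) :=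
      fun z => by ring
    rw [sum_congr rfl fun z _ => h1 z, sum_add_distrib, sum_add_distrib, sum_add_distrib,
      ← mul_sum, ← mul_sum, ← mul_sum, C.FF, C.FY, C.FY, C.YY, Fintype.sum_prod_type]
    have h2 : ∀ z : R × α × Fin 4, ∑ t : Bool, (D.U C p z + ka s t * D.V C p z) *
        (D.U C p' z + ka s' t * D.V C p' z) =
        2 * (D.U C p z * D.U C p' z) + 2 * (kb s * kb s') * (D.V C p z * D.V C p' z) := by
      intro z
      rw [Fintype.sum_bool]
      cases s <;> cases s' <;> simp [ka, kb] <;> ring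
    rw [sum_congr rfl fun z _ => h2 z, sum_add_distrib, ← mul_sum, ← mul_sum, D.UU, D.VV]
    by_cases hp : p = p'
    · subst hp
      have hc : kb (D.c p.1) * kb (D.c p.1) = 1 := by
        cases D.c p.1 <;> simp [kb]
      simp only [and_self, if_true, hc]
      cases s <;> cases s' <;> simp [kb] <;> ring
    · have hps : ¬ ((p, s) = (p', s')) := fun h => hp (Prod.ext_iff.1 h).1
      rw [if_neg hp, if_neg hp, if_neg hps]
      by_cases h1 : p.2 = p'.2
      · have h3 : p.1 ≠ p'.1 := fun h => hp (Prod.ext h h1)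
        rw [if_neg h3, if_pos h1, if_pos (congrArg Prod.snd h1), if_pos (congrArg Prod.snd h1)]
        cases D.c p.1 <;> cases D.c p'.1 <;> simp [kb, h1] <;> ring
      · by_cases h2 : p.2.2 = p'.2.2
        · simp [h1, h2]
          ring
        · simp [h1, h2]

include D C in
theorem hasHad (n : ℕ) (hb : b = 8 * Fintype.card α + 4)
    (hn : n = 4 * (2 * Fintype.card α * Fintype.card R + 1 + 2 * Fintype.card α)) : HasHad n := by
  apply Pool.Agent.TH432.Had.had_reindex (ι := Fin b ⊕ ((R × α × Fin 4) × Bool)) _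
    (D.M C) (D.M_sign C)
  · intro p p'
    rw [D.main_row, hn]
    push_cast
    rfl
  · simp only [Fintype.card_sum, Fintype.card_prod, Fintype.card_bool, Fintype.card_fin]
    rw [hb, hn]
    ring

end Data

end Pool.Agent.Helper82.QC
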