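import Pool.Agent.Helper82.QC.Field

/-!
# Conference matrices: removing two rows and columns, Paley's matrices
-/

set_option autoImplicit false

namespace Pool.Agent.Helper82.QC

open Finset
open Pool.Agent.Y342.SK (Sg IsSkew SkewC)

/-- `C` is a conference matrix with `Cᵀ = e C` -/
structure IsConf {ι : Type} [Fintype ι] [DecidableEq ι] (e : ℤ) (C : ι → ι → ℤ) : Prop where
  diag : ∀ x, C x x = 0
  sign : ∀ x y, x ≠ y → Sg (C x y)
  sym : ∀ x y, C y x = e * C x y
  mul : ∀ x y, ∑ z, C x z * C y z = if x = y then (Fintype.card ι : ℤ) - 1 else 0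

theorem Sg.sq' {x : ℤ} (h : Sg x) : x * x = 1 := by
  rcases h with rfl | rfl <;> norm_num

theorem IsConf.reindex {ι κ : Type} [Fintype ι] [DecidableEq ι] [Fintype κ] [DecidableEq κ]
    {e : ℤ} {C : ι → ι → ℤ} (h : IsConf e C) (f : κ ≃ ι) :
    IsConf e (fun x y => C (f x) (f y)) where
  diag x := h.diag _
  sign x y hxy := h.sign _ _ fun h' => hxy (f.injective h')
  sym x y := h.sym _ _
  mul x y := by
    rw [Equiv.sum_comp f (fun z => C (f x) z * C (f y) z), h.mul, Fintype.card_congr f]
    by_cases hxy : x = y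
    · rw [if_pos hxy, if_pos (congrArg f hxy)]
    · rw [if_neg hxy, if_neg fun h' => hxy (f.injective h')]

/-- remove two rows and columns -/
theorem exists_punct {v : ℕ} {e : ℤ} (he : e * e = 1) {C : Fin (v + 2) → Fin (v + 2) → ℤ}
    (h : IsConf e C) : ∃ (S : Fin v → Fin v → ℤ) (c : Fin v → Bool), IsPunct e S c := by
  set d : Fin v → ℤ := fun x => C x.succ.succ 0 with hd
  set m : ℤ := C 1 0 with hm
  have hd1 : ∀ x, Sg (d x) := fun x => h.sign _ _ (Fin.succ_ne_zero _)
  have hm1 : Sg m := h.sign _ _ (by simp)
  have he1 : Sg e := by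
    have : (e - 1) * (e + 1) = 0 := by linear_combination he
    rcases mul_eq_zero.1 this with h0 | h0
    · left; linarith
    · right; linarith
  have hne1 : ∀ x : Fin v, x.succ.succ ≠ 1 := by
    intro x h0
    have h1 : (1 : Fin (v + 2)) = (0 : Fin (v + 1)).succ := by simp
    rw [h1] at h0
    exact Fin.succ_ne_zero x (Fin.succ_injective _ h0)
  set w : Fin v → ℤ := fun x => d x * (e * m) * C x.succ.succ 1 with hw
  have hw1 : ∀ x, Sg (w x) := fun x =>
    Sg.mul' (Sg.mul' (hd1 x) (Sg.mul' he1 hm1)) (h.sign _ _ (hne1 x))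
  have hkb : ∀ x, kb (decide (w x = 1)) = w x := by
    intro x
    rcases hw1 x with h0 | h0 <;> simp [kb, h0]
  have hsum : ∀ f : Fin (v + 2) → ℤ, ∑ k, f k = f 0 + (f 1 + ∑ z : Fin v, f z.succ.succ) := by
    intro f
    rw [Fin.sum_univ_succ, Fin.sum_univ_succ]
    rfl
  have hcard : (Fintype.card (Fin (v + 2)) : ℤ) - 1 = v + 1 := by
    rw [Fintype.card_fin]; push_cast; ring
  have hmul := h.mul
  simp only [hsum, hcard] at hmul
  have h01 : C 0 1 = e * m := h.sym 1 0
  have h0z : ∀ z : Fin v, C 0 z.succ.succ = e * d z := fun z => h.sym _ 0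
  have hss : ∀ x y : Fin v, x.succ.succ = y.succ.succ ↔ x = y := fun x y => by simp
  have dd := fun x => Sg.sq' (hd1 x)
  have mm := Sg.sq' hm1
  refine ⟨fun x y => d x * d y * C x.succ.succ y.succ.succ, fun x => decide (w x = 1), ?_⟩
  refine ⟨fun x => ?_, fun x y hxy => ?_, fun x y => ?_, fun x y => ?_, fun x => ?_, fun x => ?_, ?_⟩
  · change d x * d x * C x.succ.succ x.succ.succ = 0
    rw [h.diag, mul_zero]
  · exact Sg.mul' (Sg.mul' (hd1 x) (hd1 y)) (h.sign _ _ fun h0 => hxy ((hss x y).1 h0))
  · change d y * d x * C y.succ.succ x.succ.succ = e * (d x * d y * C x.succ.succ y.succ.succ)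
    rw [h.sym x.succ.succ y.succ.succ]
    ring
  · rw [hkb, hkb]
    have h1 := hmul x.succ.succ y.succ.succ
    have h2 : ∀ z : Fin v, d x * d z * C x.succ.succ z.succ.succ *
        (d y * d z * C y.succ.succ z.succ.succ) =
        d x * d y * (C x.succ.succ z.succ.succ * C y.succ.succ z.succ.succ) := by
      intro z
      linear_combination (d x * d y * C x.succ.succ z.succ.succ * C y.succ.succ z.succ.succ) * dd z
    rw [sum_congr rfl fun z _ => h2 z, ← mul_sum]
    have h3 : ∑ z : Fin v, C x.succ.succ z.succ.succ * C y.succ.succ z.succ.succ =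
        (if x.succ.succ = y.succ.succ then (v : ℤ) + 1 else 0) - d x * d y -
          C x.succ.succ 1 * C y.succ.succ 1 := by
      rw [← h1]; ring
    rw [h3]
    have hx := dd x
    have hy := dd y
    simp only [hss]
    by_cases hxy : x = y
    · subst hxy
      rw [if_pos rfl]
      simp only [hw]
      linear_combination ((v : ℤ) + 1 - d x * d x - 1 - C x.succ.succ 1 * C x.succ.succ 1 +
        e * m * (e * m) * (C x.succ.succ 1 * C x.succ.succ 1)) * hx +
        (C x.succ.succ 1 * C x.succ.succ 1 * m * m) * he +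
        (C x.succ.succ 1 * C x.succ.succ 1) * mm
    · rw [if_neg hxy]
      simp only [hw]
      linear_combination (- d y * d y) * hx - hy +
        (d x * d y * C x.succ.succ 1 * C y.succ.succ 1 * m * m) * he +
        (d x * d y * C x.succ.succ 1 * C y.succ.succ 1) * mm
  · rw [hkb]
    have h1 := hmul x.succ.succ 0
    rw [h.diag, mul_zero, zero_add, h01, if_neg (Fin.succ_ne_zero _)] at h1
    simp only [h0z] at h1
    have h2 : ∑ z : Fin v, C x.succ.succ z.succ.succ * (e * d z) =
        e * ∑ z : Fin v, C x.succ.succ z.succ.succ * d z := by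
      rw [mul_sum]; exact sum_congr rfl fun z _ => by ring
    rw [h2] at h1
    have h3 : ∑ z : Fin v, d x * d z * C x.succ.succ z.succ.succ =
        d x * ∑ z : Fin v, C x.succ.succ z.succ.succ * d z := by
      rw [mul_sum]; exact sum_congr rfl fun z _ => by ring
    rw [h3]
    simp only [hw]
    linear_combination (d x * e) * h1 +
      (- d x * ∑ z : Fin v, C x.succ.succ z.succ.succ * d z) * he
  · simp only [hkb]
    have h1 := hmul x.succ.succ 1
    rw [h.diag, mul_zero, zero_add, if_neg (hne1 x)] at h1
    have h4 : ∀ z : Fin v, C 1 z.succ.succ = e * C z.succ.succ 1 := fun z => h.sym _ 1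
    simp only [h4] at h1
    have h2 : ∑ z : Fin v, C x.succ.succ z.succ.succ * (e * C z.succ.succ 1) =
        e * ∑ z : Fin v, C x.succ.succ z.succ.succ * C z.succ.succ 1 := by
      rw [mul_sum]; exact sum_congr rfl fun z _ => by ring
    rw [h2] at h1
    have h3 : ∑ z : Fin v, d x * d z * C x.succ.succ z.succ.succ * w z =
        d x * (e * m) * ∑ z : Fin v, C x.succ.succ z.succ.succ * C z.succ.succ 1 := by
      rw [mul_sum]
      refine sum_congr rfl fun z _ => ?_
      simp only [hw]
      linear_combination (d x * C x.succ.succ z.succ.succ * e * m * C z.succ.succ 1) * dd z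
    rw [h3]
    linear_combination (d x * m) * h1 - (m * m) * dd x - mm
  · simp only [hkb]
    have h1 := hmul 0 1
    rw [h.diag, zero_mul, zero_add, h.diag, mul_zero, zero_add, if_neg (by simp)] at h1
    have h4 : ∀ z : Fin v, C 1 z.succ.succ = e * C z.succ.succ 1 := fun z => h.sym _ 1
    simp only [h4, h0z] at h1
    have h2 : ∑ z : Fin v, e * d z * (e * C z.succ.succ 1) =
        ∑ z : Fin v, d z * C z.succ.succ 1 := by
      exact sum_congr rfl fun z _ => by linear_combination (d z * C z.succ.succ 1) * he
    rw [h2] at h1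
    have h3 : ∑ z : Fin v, w z = (e * m) * ∑ z : Fin v, d z * C z.succ.succ 1 := by
      rw [mul_sum]; exact sum_congr rfl fun z _ => by simp only [hw]; ring
    rw [h3, h1, mul_zero]

/-- the conference matrix of a skew-Hadamard matrix -/
theorem conf_of_skewC {m : ℕ} (h : SkewC m) : ∃ C : Fin m → Fin m → ℤ, IsConf (-1) C := by
  obtain ⟨K, h⟩ := h
  have hT : ∀ i j, K j i = - K i j := fun i j => congrFun (congrFun h.skew i) j
  refine ⟨K, ⟨h.diag, h.sign, fun x y => by rw [hT x y]; ring, fun x y => ?_⟩⟩
  have h1 := congrFun (congrFun h.sq x) y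
  rw [Matrix.mul_apply, Matrix.smul_apply, Matrix.one_apply] at h1
  have h2 : ∑ k, K x k * K y k = - ∑ k, K x k * K k y := by
    rw [← Finset.sum_neg_distrib]
    exact Finset.sum_congr rfl fun k _ => by rw [hT k y]; ring
  rw [h2, h1]
  by_cases hxy : x = y
  · rw [if_pos hxy, if_pos hxy]; simp
  · rw [if_neg hxy, if_neg hxy]; simp

/-! ### Paley's conference matrices -/

section paley

variable {F : Type} [Field F] [Fintype F] [DecidableEq F]

theorem chi_sq' {x : F} (hx : x ≠ 0) : quadraticChar F x * quadraticChar F x = 1 := by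
  rw [← sq]; exact quadraticChar_sq_one hx

/-- the correlation sum -/
theorem sum_chi' (hF : ringChar F ≠ 2) (x y : F) :
    ∑ z, quadraticChar F (x - z) * quadraticChar F (y - z) =
      (if x = y then (Fintype.card F : ℤ) else 0) - 1 := by
  have h1 : ∑ z, quadraticChar F (x - z) * quadraticChar F (y - z) =
      ∑ w, quadraticChar F w * quadraticChar F (w + (y - x)) := by
    rw [← Equiv.sum_comp (Equiv.subLeft x)]
    refine sum_congr rfl fun w _ => ?_
    simp only [Equiv.subLeft_apply]
    congr 2 <;> ring
  rw [h1]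
  by_cases hxy : x = y
  · subst hxy
    rw [if_pos rfl]
    simp only [sub_self, add_zero]
    have h2 : ∀ w : F, quadraticChar F w * quadraticChar F w = if w = 0 then 0 else 1 := by
      intro w
      by_cases hw : w = 0
      · subst hw; simp
      · rw [chi_sq' hw, if_neg hw]
    rw [sum_congr rfl fun w _ => h2 w]
    have h3 : ∀ w : F, (if w = 0 then (0 : ℤ) else 1) = 1 - if w = 0 then 1 else 0 := by
      intro w; split_ifs <;> norm_num
    rw [sum_congr rfl fun w _ => h3 w, sum_sub_distrib]
    simp
  · rw [if_neg hxy, zero_sub]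
    set d := y - x with hd
    have hd0 : d ≠ 0 := sub_ne_zero.2 (Ne.symm hxy)
    have h2 : ∑ w, quadraticChar F w * quadraticChar F (w + d) =
        ∑ w : {x : F // x ≠ 0}, quadraticChar F (1 + d / w) := by
      rw [Pool.Agent.TH432.Had.sum_ne_zero (fun w => quadraticChar F (1 + d / w))]
      have h3 : ∀ w : F, quadraticChar F w * quadraticChar F (w + d) =
          quadraticChar F (1 + d / w) - if w = 0 then 1 else 0 := by
        intro w
        by_cases hw : w = 0
        · subst hw; simp
        · rw [if_neg hw, sub_zero]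
          have h4 : w + d = w * (1 + d / w) := by field_simp
          rw [h4, map_mul, ← mul_assoc, chi_sq' hw, one_mul]
      rw [sum_congr rfl fun w _ => h3 w, sum_sub_distrib]
      simp
    rw [h2]
    let e : {x : F // x ≠ 0} ≃ {x : F // x ≠ 0} :=
      { toFun := fun w => ⟨d / w, div_ne_zero hd0 w.2⟩
        invFun := fun w => ⟨d / w, div_ne_zero hd0 w.2⟩
        left_inv := fun w => by ext; simp [hd0]
        right_inv := fun w => by ext; simp [hd0] }
    have h5 : ∑ w : {x : F // x ≠ 0}, quadraticChar F (1 + d / w) =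
        ∑ w : {x : F // x ≠ 0}, quadraticChar F (1 + w) :=
      Equiv.sum_comp e (fun w : {x : F // x ≠ 0} => quadraticChar F (1 + w))
    rw [h5, Pool.Agent.TH432.Had.sum_ne_zero (fun w => quadraticChar F (1 + w))]
    have h6 : ∑ w : F, quadraticChar F (1 + w) = 0 := by
      have h7 := Equiv.sum_comp (Equiv.addLeft (1 : F)) (fun w => quadraticChar F w)
      simp only [Equiv.coe_addLeft] at h7
      rw [h7]
      exact quadraticChar_sum_zero hF
    rw [h6]
    simp

/-- Paley's matrix on the projective line -/
def pal : Option F → Option F → ℤ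
  | none, none => 0
  | none, some _ => 1
  | some _, none => quadraticChar F (-1)
  | some x, some y => quadraticChar F (x - y)

theorem isConf_pal (hF : ringChar F ≠ 2) : IsConf (quadraticChar F (-1)) (pal (F := F)) := by
  have hn : (-1 : F) ≠ 0 := neg_ne_zero.2 one_ne_zero
  have he := chi_sq' hn
  have hs : ∀ x : F, ∑ z, quadraticChar F (x - z) = 0 := by
    intro x
    have h7 := Equiv.sum_comp (Equiv.subLeft x) (fun w => quadraticChar F w)
    simp only [Equiv.subLeft_apply] at h7
    rw [h7, quadraticChar_sum_zero hF]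
  refine ⟨fun x => ?_, fun x y hxy => ?_, fun x y => ?_, fun x y => ?_⟩
  · rcases x with _ | x <;> simp [pal]
  · rcases x with _ | x <;> rcases y with _ | y
    · exact absurd rfl hxy
    · left; rfl
    · exact quadraticChar_dichotomy hn
    · exact quadraticChar_dichotomy (sub_ne_zero.2 fun h => hxy (by rw [h]))
  · rcases x with _ | x <;> rcases y with _ | y <;> simp only [pal]
    · ring
    · ring
    · rw [he]
    · rw [← map_mul]; congr 1; ring
  · rw [Fintype.sum_option, Fintype.card_option]
    push_cast
    rcases x with _ | x <;> rcases y with _ | y <;> simp only [pal]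
    · simp
    · simp only [zero_mul, one_mul, zero_add, reduceCtorEq, if_false]
      exact hs y
    · simp only [mul_zero, mul_one, zero_add, reduceCtorEq, if_false]
      exact hs x
    · rw [he, sum_chi' hF]
      simp only [Option.some.injEq]
      by_cases hxy : x = y
      · rw [if_pos hxy, if_pos hxy]; ring
      · rw [if_neg hxy, if_neg hxy]; ring

end paley

/-- Paley's conference matrices of order `v + 2`, `v + 1` an odd prime power -/
theorem exists_paley {v : ℕ} (hv : v % 2 = 0) (hq : IsPrimePow (v + 1)) :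
    ∃ (e : ℤ) (C : Fin (v + 2) → Fin (v + 2) → ℤ), (e = 1 ∨ e = -1) ∧ IsConf e C := by
  obtain ⟨p, k, hp, hk, hpk⟩ := hq
  have hp' : p.Prime := hp.nat_prime
  have : Fact p.Prime := ⟨hp'⟩
  have : Fintype (GaloisField p k) := Fintype.ofFinite _
  have hcard : Fintype.card (GaloisField p k) = v + 1 := by
    rw [← Nat.card_eq_fintype_card, GaloisField.card p k (by omega), hpk]
  classical
  have hF : ringChar (GaloisField p k) ≠ 2 := by
    intro h
    have h1 := FiniteField.even_card_of_char_two h
    omega
  have hc : Fintype.card (Option (GaloisField p k)) = v + 2 := by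
    rw [Fintype.card_option, hcard]
  exact ⟨_, _, quadraticChar_dichotomy (neg_ne_zero.2 one_ne_zero),
    (isConf_pal hF).reindex (Fintype.equivFinOfCardEq hc).symm⟩

end Pool.Agent.Helper82.QC
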