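import Pool.Agent.Helper82.QC.Block

/-!
# The matrices `A`, `B` on the squares of a finite field

`A x y = χ (x - y)` and `B x y = χ (x y - l)` on the nonzero squares, `l` a nonsquare. The squares are
parametrized by a set of representatives of the cosets of a group of squares times this group.
-/

set_option autoImplicit false

namespace Pool.Agent.Helper82.QC

open Finset
open Pool.Agent.H108R3.Had (HasHad)
open Pool.Agent.Y342.SK (Sg)
open Pool.Agent.TH432.Had (sum_chi chi_neg chi_sq char_ne_two chi_neg_one)

variable {F : Type} [Field F] [Fintype F] [DecidableEq F]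
variable {α : Type} [AddCommGroup α] [Fintype α] [DecidableEq α]

/-- an embedding of the group `α` in the squares -/
structure IsRoots (u : α → F) : Prop where
  mul : ∀ a a', u a * u a' = u (a + a')
  chi : ∀ a, quadraticChar F (u a) = 1
  inj : ∀ a, u a = 1 → a = 0

theorem ne_zero_of_chi {x : F} (h : quadraticChar F x = 1) : x ≠ 0 := by
  intro h0
  rw [h0, quadraticChar_zero] at h
  exact zero_ne_one h

omit [Fintype α] [DecidableEq α] in
theorem IsRoots.zero {u : α → F} (hu : IsRoots u) : u 0 = 1 := by
  have h1 := hu.mul 0 0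
  rw [add_zero] at h1
  have h2 := ne_zero_of_chi (hu.chi 0)
  exact mul_left_cancel₀ h2 (by rw [h1, mul_one])

theorem chi_ns {l : F} (hl : ¬ IsSquare l) : quadraticChar F l = -1 :=
  quadraticChar_neg_one_iff_not_isSquare.2 hl

/-- representatives of the cosets of the group in the squares -/
abbrev Rep (u : α → F) : Type :=
  {x : F // quadraticChar F x = 1 ∧ ∀ a, Fintype.equivFin F x ≤ Fintype.equivFin F (x * u a)}

noncomputable instance (u : α → F) : Fintype (Rep u) := by
  classical exact Fintype.ofFinite _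

/-- the point of the pair -/
def pt {u : α → F} (p : Rep u × α) : F := p.1 * u p.2

theorem chi_pt {u : α → F} (hu : IsRoots u) (p : Rep u × α) :
    quadraticChar F (pt p) = 1 := by
  rw [pt, map_mul, p.1.2.1, hu.chi, one_mul]

theorem pt_ne {u : α → F} (hu : IsRoots u) (p : Rep u × α) :
    pt p ≠ 0 := ne_zero_of_chi (chi_pt hu p)

theorem pt_inj {u : α → F} (hu : IsRoots u) {p p' : Rep u × α}
    (h : pt p = pt p') : p = p' := by
  obtain ⟨r, a⟩ := p
  obtain ⟨r', a'⟩ := p'
  simp only [pt] at h
  have key : ∀ (r r' : Rep u) (a a' : α), (r : F) * u a = r' * u a' →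
      (r : F) * u (a - a') = r' := by
    intro r r' a a' h
    rw [sub_eq_add_neg, ← hu.mul, ← mul_assoc, h, mul_assoc, hu.mul, add_neg_cancel, hu.zero,
      mul_one]
  have h1 := key r r' a a' h
  have h2 := key r' r a' a h.symm
  have h3 := r.2.2 (a - a')
  have h4 := r'.2.2 (a' - a)
  rw [h1] at h3
  rw [h2] at h4
  have h5 : (r : F) = r' := (Fintype.equivFin F).injective (le_antisymm h3 h4)
  have hr : r = r' := Subtype.ext h5
  subst hr
  have h0 : (r : F) ≠ 0 := ne_zero_of_chi r.2.1
  have h6 : u (a - a') = 1 := by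
    apply mul_left_cancel₀ h0
    rw [h1, mul_one]
  have h7 := hu.inj _ h6
  rw [sub_eq_zero.1 h7]

theorem pt_surj {u : α → F} (hu : IsRoots u) {x : F}
    (hx : quadraticChar F x = 1) : ∃ p : Rep u × α, pt p = x := by
  obtain ⟨a, _, ha⟩ := Finset.exists_min_image (Finset.univ : Finset α)
    (fun a => Fintype.equivFin F (x * u a)) ⟨0, Finset.mem_univ _⟩
  refine ⟨(⟨x * u a, ?_, fun b => ?_⟩, -a), ?_⟩
  · rw [map_mul, hx, hu.chi, one_mul]
  · rw [mul_assoc, hu.mul]
    exact ha _ (Finset.mem_univ _)
  · change x * u a * u (-a) = x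
    rw [mul_assoc, hu.mul, add_neg_cancel, hu.zero, mul_one]

theorem sum_pt {u : α → F} (hu : IsRoots u) (g : F → ℤ) :
    ∑ p : Rep u × α, g (pt p) = ∑ x : F, if quadraticChar F x = 1 then g x else 0 := by
  classical
  rw [← Finset.sum_filter]
  refine Finset.sum_bij (fun p _ => pt p) (fun p _ => ?_) (fun p _ p' _ h => pt_inj hu h)
    (fun x hx => ?_) (fun _ _ => rfl)
  · simp only [Finset.mem_filter, Finset.mem_univ, true_and]
    exact chi_pt hu p
  · obtain ⟨p, hp⟩ := pt_surj hu (Finset.mem_filter.1 hx).2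
    exact ⟨p, Finset.mem_univ _, hp⟩

theorem chi_div {l x : F} (hl : ¬ IsSquare l) (hx : x ≠ 0) :
    quadraticChar F (l / x) = - quadraticChar F x := by
  have h1 : quadraticChar F (l / x) * quadraticChar F x = -1 := by
    rw [← map_mul, div_mul_cancel₀ _ hx, chi_ns hl]
  have h2 := chi_sq hx
  linear_combination (quadraticChar F x) * h1 - (quadraticChar F (l / x)) * h2

theorem sum_rep {u : α → F} (hu : IsRoots u) {l : F}
    (hl : ¬ IsSquare l) (h : F → ℤ) :
    ∑ p : Rep u × α, h (pt p) + ∑ p : Rep u × α, h (l / pt p) = ∑ t, h t - h 0 := by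
  classical
  have hl0 : l ≠ 0 := fun h0 => hl (by rw [h0]; exact IsSquare.zero)
  have hinv : ∀ x : F, l / (l / x) = x := by
    intro x
    by_cases hx : x = 0
    · subst hx; simp
    · field_simp
  let s : F ≃ F := ⟨fun x => l / x, fun x => l / x, hinv, hinv⟩
  rw [sum_pt hu h, sum_pt hu (fun x => h (l / x))]
  have h2 : ∑ x : F, (if quadraticChar F x = 1 then h (l / x) else 0) =
      ∑ x : F, (if quadraticChar F (l / x) = 1 then h x else 0) := by
    rw [← Equiv.sum_comp s (fun x => if quadraticChar F (l / x) = 1 then h x else 0)]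
    refine sum_congr rfl fun x _ => ?_
    change _ = if quadraticChar F (l / (l / x)) = 1 then h (l / x) else 0
    rw [hinv]
  rw [h2, ← Finset.sum_add_distrib]
  have h4 : ∀ x : F, (if quadraticChar F x = 1 then h x else 0) +
      (if quadraticChar F (l / x) = 1 then h x else 0) = h x - if x = 0 then h 0 else 0 := by
    intro x
    by_cases hx : x = 0
    · subst hx; simp
    · rw [chi_div hl hx, if_neg hx]
      rcases quadraticChar_dichotomy hx with h5 | h5 <;> rw [h5] <;> norm_num
  rw [sum_congr rfl fun x _ => h4 x, Finset.sum_sub_distrib]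
  simp

theorem card_rep (h4 : Fintype.card F % 4 = 1) {u : α → F} (hu : IsRoots u) :
    2 * Fintype.card α * Fintype.card (Rep u) + 1 = Fintype.card F := by
  obtain ⟨l, hl⟩ := FiniteField.exists_nonsquare (F := F) (char_ne_two h4)
  have h1 := sum_rep hu hl (fun _ => 1)
  simp only [sum_const, card_univ, nsmul_eq_mul, mul_one, Fintype.card_prod] at h1
  push_cast at h1
  have h2 : (2 : ℤ) * Fintype.card α * Fintype.card (Rep u) + 1 = Fintype.card F := by
    linarith
  exact_mod_cast h2

/-- the matrix `A` -/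
noncomputable def mA {u : α → F} (p p' : Rep u × α) : ℤ := quadraticChar F (pt p - pt p')

/-- the matrix `B` -/
noncomputable def mB {u : α → F} (l : F) (p p' : Rep u × α) : ℤ :=
  quadraticChar F (pt p * pt p' - l)

theorem chi_mul_sub {l x t : F} (ht : quadraticChar F t = 1) :
    quadraticChar F (x * t - l) = quadraticChar F (x - l / t) := by
  have ht0 := ne_zero_of_chi ht
  have h1 : x * t - l = t * (x - l / t) := by field_simp
  rw [h1, map_mul, ht, one_mul]

theorem sum_chi_sub (h4 : Fintype.card F % 4 = 1) (x : F) : ∑ t, quadraticChar F (x - t) = 0 := by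
  have h7 := Equiv.sum_comp (Equiv.subLeft x) (fun w => quadraticChar F w)
  simp only [Equiv.subLeft_apply] at h7
  rw [h7, quadraticChar_sum_zero (char_ne_two h4)]

theorem chi_mul_sub' (h4 : Fintype.card F % 4 = 1) {l y t : F} (hy : quadraticChar F y = 1) :
    quadraticChar F (y * t - l) = quadraticChar F (l / y - t) := by
  have hy0 := ne_zero_of_chi hy
  have h1 : y * t - l = y * -(l / y - t) := by field_simp; ring
  rw [h1, map_mul, chi_neg h4, hy, one_mul]

theorem chi_inv_sub {l y t : F} (hl : ¬ IsSquare l) (ht : quadraticChar F t = 1) :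
    quadraticChar F (y * (l / t) - l) = - quadraticChar F (y - t) := by
  have ht0 := ne_zero_of_chi ht
  have h1 : t * (y * (l / t) - l) = l * (y - t) := by field_simp
  have h2 := congrArg (quadraticChar F) h1
  rw [map_mul, map_mul, ht, chi_ns hl, one_mul] at h2
  rw [h2]
  ring

theorem pt_mul_ne {u : α → F} (hu : IsRoots u) {l : F}
    (hl : ¬ IsSquare l) (p p' : Rep u × α) : pt p * pt p' ≠ l := by
  intro h
  have h1 := congrArg (quadraticChar F) h
  rw [map_mul, chi_pt hu, chi_pt hu, chi_ns hl] at h1
  norm_num at h1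

theorem mAB_sq (h4 : Fintype.card F % 4 = 1) {u : α → F} (hu : IsRoots u) {l : F}
    (hl : ¬ IsSquare l) (x y : Rep u × α) :
    ∑ z, mA x z * mA y z + ∑ z, mB l x z * mB l y z =
      (if x = y then (Fintype.card F : ℤ) else 0) - 2 := by
  simp only [mA, mB]
  have h1 := sum_rep hu hl (fun t => quadraticChar F (pt x - t) * quadraticChar F (pt y - t))
  rw [sum_chi h4] at h1
  have h2 : ∀ t : Rep u × α, quadraticChar F (pt x * pt t - l) *
      quadraticChar F (pt y * pt t - l) =
      quadraticChar F (pt x - l / pt t) * quadraticChar F (pt y - l / pt t) := by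
    intro t
    rw [chi_mul_sub (chi_pt hu t), chi_mul_sub (chi_pt hu t)]
  rw [sum_congr rfl fun t _ => h2 t]
  simp only [sub_zero, chi_pt hu] at h1
  have h3 : (if pt x = pt y then (Fintype.card F : ℤ) else 0) =
      if x = y then (Fintype.card F : ℤ) else 0 := by
    by_cases h : x = y
    · rw [if_pos h, if_pos (congrArg pt h)]
    · rw [if_neg h, if_neg fun h' => h (pt_inj hu h')]
  rw [h3] at h1
  linarith

theorem mAB_com (h4 : Fintype.card F % 4 = 1) {u : α → F} (hu : IsRoots u) {l : F}
    (hl : ¬ IsSquare l) (x y : Rep u × α) :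
    ∑ z, mA x z * mB l y z = ∑ z, mB l x z * mA y z := by
  simp only [mA, mB]
  have h1 := sum_rep hu hl (fun t => quadraticChar F (pt x - t) *
    quadraticChar F (pt y * t - l))
  have h2 : ∑ t, quadraticChar F (pt x - t) * quadraticChar F (pt y * t - l) = - 1 := by
    have h5 : ∀ t : F, quadraticChar F (pt x - t) * quadraticChar F (pt y * t - l) =
        quadraticChar F (pt x - t) * quadraticChar F (l / pt y - t) := by
      intro t
      rw [chi_mul_sub' h4 (chi_pt hu y)]
    rw [sum_congr rfl fun t _ => h5 t, sum_chi h4, if_neg]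
    · ring
    · intro h6
      apply pt_mul_ne hu hl x y
      rw [h6]
      field_simp [pt_ne hu y]
  have h3 : ∀ t : Rep u × α, quadraticChar F (pt x - l / pt t) *
      quadraticChar F (pt y * (l / pt t) - l) =
      - (quadraticChar F (pt x * pt t - l) * quadraticChar F (pt y - pt t)) := by
    intro t
    rw [chi_inv_sub hl (chi_pt hu t), chi_mul_sub (l := l) (x := pt x) (chi_pt hu t)]
    ring
  rw [h2, sum_congr rfl fun t _ => h3 t, Finset.sum_neg_distrib] at h1
  simp only [mul_zero, zero_sub, sub_zero, chi_neg h4, chi_ns hl, chi_pt hu] at h1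
  linarith

theorem rows (h4 : Fintype.card F % 4 = 1) {u : α → F} (hu : IsRoots u) {l : F}
    (hl : ¬ IsSquare l) (x : Rep u × α) :
    ∑ z, mA x z = -1 ∧ ∑ z, mB l x z = 0 := by
  simp only [mA, mB]
  have h1 := sum_rep hu hl (fun t => quadraticChar F (pt x - t))
  rw [sum_chi_sub h4, sub_zero, chi_pt hu] at h1
  have h2 : ∀ t : Rep u × α, quadraticChar F (pt x - l / pt t) =
      quadraticChar F (pt x * pt t - l) := fun t => (chi_mul_sub (chi_pt hu t)).symm
  rw [sum_congr rfl fun t _ => h2 t] at h1
  have h3 := sum_rep hu hl (fun t => quadraticChar F (pt x * t - l))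
  have h5 : ∀ t : Rep u × α, quadraticChar F (pt x * (l / pt t) - l) =
      - quadraticChar F (pt x - pt t) := fun t => chi_inv_sub hl (chi_pt hu t)
  have h6 : ∑ t, quadraticChar F (pt x * t - l) = 0 := by
    rw [sum_congr rfl fun t _ => chi_mul_sub' h4 (chi_pt hu x), sum_chi_sub h4]
  rw [h6, sum_congr rfl fun t _ => h5 t, Finset.sum_neg_distrib] at h3
  simp only [mul_zero, zero_sub, chi_neg h4, chi_ns hl] at h3
  constructor <;> linarith

theorem mA_shift {u : α → F} (hu : IsRoots u) (r : Rep u) (a : α) (r' : Rep u) (a' t : α) :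
    mA (r, a + t) (r', a' + t) = mA (r, a) (r', a') := by
  simp only [mA, pt]
  rw [← hu.mul, ← hu.mul]
  have h2 : (r : F) * (u a * u t) - r' * (u a' * u t) = u t * ((r : F) * u a - r' * u a') := by
    ring
  rw [h2, map_mul, hu.chi, one_mul]

theorem mB_shift {u : α → F} (hu : IsRoots u) (l : F) (r : Rep u) (a : α) (r' : Rep u)
    (a' t : α) : mB l (r, a + t) (r', a' - t) = mB l (r, a) (r', a') := by
  simp only [mB, pt]
  have h1 : ∀ a a' : α, (r : F) * u a * (r' * u a') = r * r' * u (a + a') := by
    intro a a'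
    rw [← hu.mul]; ring
  have h2 : a + t + (a' - t) = a + a' := by abel
  rw [h1, h1, h2]

/-- a conference matrix with two rows and columns removed -/
structure IsPunct (e : ℤ) {v : ℕ} (S : Fin v → Fin v → ℤ) (c : Fin v → Bool) : Prop where
  S0 : ∀ x, S x x = 0
  S1 : ∀ x y, x ≠ y → Sg (S x y)
  Ss : ∀ x y, S y x = e * S x y
  SS : ∀ x y, ∑ z, S x z * S y z =
    (if x = y then (v : ℤ) + 1 else 0) - 1 - kb (c x) * kb (c y)
  Sr : ∀ x, ∑ y, S x y = - e * kb (c x)
  Sc : ∀ x, ∑ y, S x y * kb (c y) = -1
  cs : ∑ y, kb (c y) = 0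

/-- Hadamard matrices of order `4 (q + 2 s)` -/
theorem had_field (h4 : Fintype.card F % 4 = 1) {u : α → F} (hu : IsRoots u) {b : ℕ} {e : ℤ}
    (C : Corner α b e) (hb : b = 8 * Fintype.card α + 4) {v : ℕ}
    (hv : 2 * Fintype.card α * v + 1 = Fintype.card F)
    {S : Fin v → Fin v → ℤ} {c : Fin v → Bool} (hS : IsPunct e S c) :
    HasHad (4 * (Fintype.card F + 2 * Fintype.card α)) := by
  classical
  obtain ⟨l, hl⟩ := FiniteField.exists_nonsquare (char_ne_two h4)
  have hc := card_rep h4 hu
  have hα : 0 < Fintype.card α := Fintype.card_pos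
  have hcard : Fintype.card (Rep u) = v := by
    have h1 : 2 * Fintype.card α * Fintype.card (Rep u) = 2 * Fintype.card α * v := by omega
    exact Nat.eq_of_mul_eq_mul_left (by omega) h1
  have hc' : 2 * (Fintype.card α : ℤ) * (Fintype.card (Rep u) : ℤ) + 1 = (Fintype.card F : ℤ) := by
    exact_mod_cast hc
  let f : Rep u ≃ Fin v := Fintype.equivFinOfCardEq hcard
  let D : Data α e (Rep u) :=
    { S := fun x y => S (f x) (f y)
      c := fun x => c (f x)
      A := mA
      B := mB l
      S0 := fun x => hS.S0 _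
      S1 := fun x y hxy => hS.S1 _ _ fun h => hxy (f.injective h)
      Ss := fun x y => hS.Ss _ _
      SS := fun x y => by
        rw [Equiv.sum_comp f (fun z => S (f x) z * S (f y) z), hS.SS, hcard]
        by_cases hxy : x = y
        · rw [if_pos hxy, if_pos (congrArg f hxy)]
        · rw [if_neg hxy, if_neg fun h => hxy (f.injective h)]
      Sr := fun x => by
        rw [Equiv.sum_comp f (fun y => S (f x) y)]; exact hS.Sr _
      Sc := fun x => by
        rw [Equiv.sum_comp f (fun y => S (f x) y * kb (c y))]; exact hS.Sc _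
      cs := by
        rw [Equiv.sum_comp f (fun y => kb (c y))]; exact hS.cs
      A0 := fun x => by simp [mA]
      A1 := fun x y hxy => by
        apply quadraticChar_dichotomy
        rw [sub_ne_zero]
        exact fun h => hxy (pt_inj hu h)
      B1 := fun x y => by
        apply quadraticChar_dichotomy
        rw [sub_ne_zero]
        exact pt_mul_ne hu hl x y
      As := fun x y => by
        simp only [mA]
        rw [← chi_neg h4, neg_sub]
      Bs := fun x y => by
        simp only [mB]
        rw [mul_comm]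
      sq := fun x y => by
        rw [mAB_sq h4 hu hl, hc']
      com := mAB_com h4 hu hl
      Ar := fun x => (rows h4 hu hl x).1
      Br := fun x => (rows h4 hu hl x).2
      Ac := mA_shift hu
      Bc := mB_shift hu l }
  apply D.hasHad C _ hb
  rw [hcard, ← hv]

end Pool.Agent.Helper82.QC
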