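import Pool.Agent.Helper82.QC.Block

/-!
# The corners for `s = 4`

The border vectors are sign combinations of four vectors of an orthogonal basis; the 9 blocks of
four vectors and the matrix `K` form a tournament design. All conditions are checked by the kernel.
-/

set_option autoImplicit false

namespace Pool.Agent.Helper82.QC.S4

open Finset

/-- sign from a bit -/
def nb (N i : ℕ) : ℤ := if N.testBit i then -1 else 1

/-- the Hadamard matrix of order 8 in `K` -/
def nN : ℕ := 2488216468426211720

/-- the places of the nonzero entries of `Y` and `Y'` -/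
def nM : ℕ := 5104235503814077027213334932211493826560

/-- signs of `Y` -/
def nY : ℕ := 2381976568446569300026576330920061624320

/-- signs of `Y'` -/
def nY' : ℕ := 2041694201525630840400124490819880091648

/-- signs of `F true` -/
def nF1 : ℕ := 115454835349007647870439140301270974935367916983909705429134971832966474257929796192774373498928718172827445436811313583133930921064545240879711720081383769777874261477753105

/-- signs of `F false` -/
def nF2 : ℕ := 130912984575156541320092129999430141582459271511289872117651982632775250939160989675432307443519783340176539344443013977817815349202497062297526792342662477016499912041169390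

/-- signs of `F' true` -/
def nG1 : ℕ := 148183078025181082185229498527919702202946819929651856757059258857295950831195811896314718587523879576216574045603735683620889680344807983492291739645852541301876927007555584

/-- signs of `F' false` -/
def nG2 : ℕ := 101808630349255155537070153675503617255754324003246607443196391034670158100057785284669212698211925662825020868949040999192103497403342140153603909648812105514603461393449215

/-- signs of the corner, skew case -/
def nPm : ℕ := 522738563686938666597671009275158034664746392706799025838117194918857721882118313656273835596608365017790564652451351304064668691775397794755623259435912233627139790267138517607940981257528675434997119611601356527984684016508444723982520515867864982882437315198002486252752970766013776556397894085382436978366989752812811250149298039690895769024567022395222217918755001406654647945400095119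

/-- signs of the corner, symmetric case -/
def nPp : ℕ := 522737264918788501740836296090113368054235718394186730163391734555462983800831579128552306379569996626762381541185783819098838552400832094371149082659138313642601828366081785549688546463170508683852583729373186145104912457074759989525602490792017447738319009629983046953218757170439476611926108914811747243361518345101143362743976960933125349888074371063068481393598696238152117306862604687

/-- the matrix `K` -/
def K (e : ℤ) (p p' : Fin 4 × Fin 4) : ℤ :=
  if p.2.val < 2 then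
    (if p'.2.val < 2 then 0 else
      nb nN ((p.2.val * 4 + p.1.val) * 8 + ((p'.2.val - 2) * 4 + p'.1.val)))
  else
    (if p'.2.val < 2 then
      - e * nb nN ((p'.2.val * 4 + p'.1.val) * 8 + ((p.2.val - 2) * 4 + p.1.val))
    else 0)

/-- the first circulant -/
def d1 : Fin 4 → ℤ := ![-1, 1, 1, 1]

/-- the second circulant -/
def d2 : Fin 4 → ℤ := ![-1, 1, 1, 1]

/-- border columns, even part -/
def F (r : Bool) (p : Fin 4 × Fin 4) (z : Fin 36) : ℤ :=
  if nM.testBit (p.2.val * 36 + z.val) then 0 else
    nb (if r then nF1 else nF2) ((p.1.val * 4 + p.2.val) * 36 + z.val)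

/-- border columns, odd part -/
def Y (x : Fin 4) (z : Fin 36) : ℤ :=
  if nM.testBit (x.val * 36 + z.val) then nb nY (x.val * 36 + z.val) else 0

/-- border rows, even part -/
def F' (r : Bool) (p : Fin 4 × Fin 4) (z : Fin 36) : ℤ :=
  if nM.testBit (p.2.val * 36 + z.val) then 0 else
    nb (if r then nG1 else nG2) ((p.1.val * 4 + p.2.val) * 36 + z.val)

/-- border rows, odd part -/
def Y' (x : Fin 4) (z : Fin 36) : ℤ :=
  if nM.testBit (x.val * 36 + z.val) then nb nY' (x.val * 36 + z.val) else 0

/-- the corner, skew case -/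
def Pm (i j : Fin 36) : ℤ := nb nPm (i.val * 36 + j.val)

/-- the corner, symmetric case -/
def Pp (i j : Fin 36) : ℤ := nb nPp (i.val * 36 + j.val)

set_option maxRecDepth 100000

theorem nb_sign (N i : ℕ) : nb N i = 1 ∨ nb N i = -1 := by
  unfold nb; split_ifs <;> simp

theorem card_eq : ((Fintype.card (Fin 4) : ℕ) : ℤ) = 4 := by simp

theorem Ks_m : ∀ p p' : Fin 4 × Fin 4, K (-1) p' p = - (-1) * K (-1) p p' := by decide +kernel
theorem KK_m : ∀ p p' : Fin 4 × Fin 4, ∑ z, K (-1) p z * K (-1) p' z =
    if p = p' then 2 * 4 else 0 := by decide +kernel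
theorem Kd_m : ∀ p p' : Fin 4 × Fin 4, jj p.2 p'.2 = 0 → kk p.2 p'.2 = 0 → K (-1) p p' = 0 := by
  decide +kernel
theorem Ke_m : ∀ p p' : Fin 4 × Fin 4, (jj p.2 p'.2 ≠ 0 ∨ kk p.2 p'.2 ≠ 0) →
    (K (-1) p p' = 1 ∨ K (-1) p p' = -1) := by decide +kernel
theorem PP_m : ∀ i j : Fin 36, ∑ z, Pm i z * Pm j z =
    if i = j then 8 * 4 + 4 else 0 := by decide +kernel
theorem PF_m : ∀ (i : Fin 36) (r : Bool) (p : Fin 4 × Fin 4), ∑ z, Pm i z * F r p z +
    ∑ p', (- (-1) * kb r * (F' true p' i + F' false p' i) -
    (F' true p' i - F' false p' i)) * K (-1) p p' + 2 * F' r p i = 0 := by decide +kernel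
theorem PY_m : ∀ (i : Fin 36) (x : Fin 4), ∑ z, Pm i z * Y x z + 2 * ∑ x', Y' x' i *
    (- de x x' + 2 * jj x x' + 2 * kk x x') = 0 := by decide +kernel

theorem Ks_p : ∀ p p' : Fin 4 × Fin 4, K 1 p' p = - 1 * K 1 p p' := by decide +kernel
theorem KK_p : ∀ p p' : Fin 4 × Fin 4, ∑ z, K 1 p z * K 1 p' z =
    if p = p' then 2 * 4 else 0 := by decide +kernel
theorem Kd_p : ∀ p p' : Fin 4 × Fin 4, jj p.2 p'.2 = 0 → kk p.2 p'.2 = 0 → K 1 p p' = 0 := by
  decide +kernel
theorem Ke_p : ∀ p p' : Fin 4 × Fin 4, (jj p.2 p'.2 ≠ 0 ∨ kk p.2 p'.2 ≠ 0) →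
    (K 1 p p' = 1 ∨ K 1 p p' = -1) := by decide +kernel
theorem PP_p : ∀ i j : Fin 36, ∑ z, Pp i z * Pp j z =
    if i = j then 8 * 4 + 4 else 0 := by decide +kernel
theorem PF_p : ∀ (i : Fin 36) (r : Bool) (p : Fin 4 × Fin 4), ∑ z, Pp i z * F r p z +
    ∑ p', (- 1 * kb r * (F' true p' i + F' false p' i) -
    (F' true p' i - F' false p' i)) * K 1 p p' + 2 * F' r p i = 0 := by decide +kernel
theorem PY_p : ∀ (i : Fin 36) (x : Fin 4), ∑ z, Pp i z * Y x z + 2 * ∑ x', Y' x' i *
    (- de x x' + 2 * jj x x' + 2 * kk x x') = 0 := by decide +kernel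

theorem d1e : ∀ t : Fin 4, d1 (-t) = d1 t := by decide
theorem d2e : ∀ t : Fin 4, d2 (-t) = d2 t := by decide
theorem d1s : ∀ t : Fin 4, d1 t = 1 ∨ d1 t = -1 := by decide
theorem d2s : ∀ t : Fin 4, d2 t = 1 ∨ d2 t = -1 := by decide
theorem dd : ∀ a a' : Fin 4, ∑ z, d1 (z - a) * d1 (z - a') + ∑ z, d2 (z - a) * d2 (z - a') =
    if a = a' then 2 * 4 else 0 := by decide +kernel
theorem d1r : ∑ t : Fin 4, d1 t = 2 := by decide
theorem d2r : ∑ t : Fin 4, d2 t = 2 := by decide

theorem F1 (r : Bool) (p : Fin 4 × Fin 4) (z : Fin 36) :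
    (F r p z + Y p.2 z = 1 ∨ F r p z + Y p.2 z = -1) ∧
    (F r p z - Y p.2 z = 1 ∨ F r p z - Y p.2 z = -1) := by
  unfold F Y
  have h1 := nb_sign (if r then nF1 else nF2) ((p.1.val * 4 + p.2.val) * 36 + z.val)
  have h2 := nb_sign nY (p.2.val * 36 + z.val)
  split_ifs
  all_goals
    rcases h1 with h1 | h1 <;> rcases h2 with h2 | h2 <;> simp_all

theorem F1' (r : Bool) (p : Fin 4 × Fin 4) (z : Fin 36) :
    (F' r p z + Y' p.2 z = 1 ∨ F' r p z + Y' p.2 z = -1) ∧
    (F' r p z - Y' p.2 z = 1 ∨ F' r p z - Y' p.2 z = -1) := by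
  unfold F' Y'
  have h1 := nb_sign (if r then nG1 else nG2) ((p.1.val * 4 + p.2.val) * 36 + z.val)
  have h2 := nb_sign nY' (p.2.val * 36 + z.val)
  split_ifs
  all_goals
    rcases h1 with h1 | h1 <;> rcases h2 with h2 | h2 <;> simp_all

theorem FF : ∀ (r : Bool) (p : Fin 4 × Fin 4) (r' : Bool) (p' : Fin 4 × Fin 4),
    ∑ z, F r p z * F r' p' z = if r = r' ∧ p = p' then 8 * 4 else 0 := by decide +kernel
theorem FY : ∀ (r : Bool) (p : Fin 4 × Fin 4) (x : Fin 4), ∑ z, F r p z * Y x z = 0 := by
  decide +kernel
theorem YY : ∀ x x' : Fin 4, ∑ z, Y x z * Y x' z = if x = x' then 4 else 0 := by decide +kernel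
theorem bord : ∀ i j : Fin 36,
    ∑ p, (F' true p i * F' true p j + F' false p i * F' false p j) +
    2 * 4 * ∑ x, Y' x i * Y' x j = if i = j then 8 * 4 else 0 := by decide +kernel

/-- the corner, skew case -/
def corner_m : Corner (Fin 4) 36 (-1) where
  K := K (-1)
  d1 := d1
  d2 := d2
  g1 := 2
  g2 := 2
  F := F
  Y := Y
  F' := F'
  Y' := Y'
  P := Pm
  he := by norm_num
  Ks := Ks_m
  KK := fun p p' => by rw [card_eq]; exact KK_m p p'
  Kd := Kd_m
  Ke := Ke_m
  d1e := d1e
  d2e := d2e
  d1s := d1s
  d2s := d2s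
  dd := fun a a' => by rw [card_eq]; exact dd a a'
  d1r := d1r
  d2r := d2r
  P1 := fun i j => nb_sign _ _
  F1 := F1
  F1' := F1'
  FF := fun r p r' p' => by rw [card_eq]; exact FF r p r' p'
  FY := FY
  YY := YY
  PP := fun i j => by rw [card_eq]; exact PP_m i j
  bord := fun i j => by rw [card_eq]; exact bord i j
  PF := PF_m
  PY := PY_m

/-- the corner, symmetric case -/
def corner_p : Corner (Fin 4) 36 1 where
  K := K 1
  d1 := d1
  d2 := d2
  g1 := 2
  g2 := 2
  F := F
  Y := Y
  F' := F'
  Y' := Y'
  P := Pp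
  he := by norm_num
  Ks := Ks_p
  KK := fun p p' => by rw [card_eq]; exact KK_p p p'
  Kd := Kd_p
  Ke := Ke_p
  d1e := d1e
  d2e := d2e
  d1s := d1s
  d2s := d2s
  dd := fun a a' => by rw [card_eq]; exact dd a a'
  d1r := d1r
  d2r := d2r
  P1 := fun i j => nb_sign _ _
  F1 := F1
  F1' := F1'
  FF := fun r p r' p' => by rw [card_eq]; exact FF r p r' p'
  FY := FY
  YY := YY
  PP := fun i j => by rw [card_eq]; exact PP_p i j
  bord := fun i j => by rw [card_eq]; exact bord i j
  PF := PF_p
  PY := PY_p

end Pool.Agent.Helper82.QC.S4
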