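import Pool.Agent.Helper82.QC.S2
import Pool.Agent.Helper82.QC.S4
import Pool.Agent.Helper82.QC.Conf

/-!
# Hadamard matrices of order `4 (q + 4)` and `4 (q + 8)`
-/

set_option autoImplicit false

namespace Pool.Agent.Helper82.QC

open Finset
open Pool.Agent.H108R3.Had (HasHad)
open Pool.Agent.Y342.SK (SkewC Sg)
open Pool.Agent.W851.Had (tow)
open Pool.Agent.TH432.Had (chi_neg char_ne_two chi_neg_one)

section roots

variable {F : Type} [Field F] [Fintype F] [DecidableEq F]

omit [DecidableEq F] in
theorem two_ne (h4 : Fintype.card F % 4 = 1) : (2 : F) ≠ 0 :=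
  Ring.two_ne_zero (char_ne_two h4)

/-- the group `1, -1` -/
def u2 : Fin 2 → F := ![1, -1]

theorem roots2 (h4 : Fintype.card F % 4 = 1) : IsRoots (u2 : Fin 2 → F) where
  mul a a' := by
    fin_cases a <;> fin_cases a' <;> simp [u2]
  chi a := by
    fin_cases a
    · exact map_one _
    · exact chi_neg_one h4
  inj a h := by
    fin_cases a
    · rfl
    · exfalso
      change (-1 : F) = 1 at h
      apply two_ne h4
      rw [← one_add_one_eq_two]
      nth_rewrite 1 [← h]
      ring

/-- the fourth roots of unity -/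
def u4 (w : F) : Fin 4 → F := ![1, w, -1, -w]

theorem roots4 (h8 : Fintype.card F % 8 = 1) {w : F} (hw : w * w = -1) :
    IsRoots (u4 w : Fin 4 → F) where
  mul a a' := by
    fin_cases a <;> fin_cases a' <;> simp [u4, hw]
  chi a := by
    have h4 : Fintype.card F % 4 = 1 := by omega
    have hw0 : w ≠ 0 := by
      rintro rfl
      simp at hw
    have h1 : quadraticChar F w = 1 := by
      rw [quadraticChar_one_iff_isSquare hw0, FiniteField.isSquare_iff (char_ne_two h4) hw0]
      obtain ⟨m, hm⟩ : ∃ m, Fintype.card F / 2 = 2 * (2 * m) := ⟨Fintype.card F / 8, by omega⟩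
      rw [hm, pow_mul, sq, hw, pow_mul, neg_one_sq, one_pow]
    fin_cases a
    · exact map_one _
    · exact h1
    · exact chi_neg_one h4
    · change quadraticChar F (-w) = 1
      rw [chi_neg h4, h1]
  inj a h := by
    have h2 : (2 : F) ≠ 0 := two_ne (by omega)
    have h11 : (1 : F) + 1 ≠ 0 := by rwa [one_add_one_eq_two]
    fin_cases a
    · rfl
    · exfalso
      change w = 1 at h
      rw [h, one_mul] at hw
      exact h11 (by rw [← sub_neg_eq_add, ← hw, sub_self])
    · exfalso
      change (-1 : F) = 1 at h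
      apply h11
      nth_rewrite 1 [← h]
      ring
    · exfalso
      change -w = 1 at h
      have h3 : w = -1 := by rw [← h, neg_neg]
      rw [h3] at hw
      apply h11
      have h4 : (1 : F) = -1 := by linear_combination hw
      nth_rewrite 1 [h4]
      ring

end roots

/-- from a conference matrix of order `v + 2` -/
theorem main_conf {q v c : ℕ} (hc : c = 4 ∨ c = 8) (hq : IsPrimePow q) (hv : q = c * v + 1)
    {e : ℤ} (he : e = 1 ∨ e = -1) {W : Fin (v + 2) → Fin (v + 2) → ℤ} (hW : IsConf e W) :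
    HasHad (4 * (q + c)) := by
  obtain ⟨S, cc, hS⟩ := exists_punct (by rcases he with rfl | rfl <;> norm_num) hW
  obtain ⟨p, k, hp, hk, rfl⟩ := hq
  have hp' : p.Prime := hp.nat_prime
  have : Fact p.Prime := ⟨hp'⟩
  have : Fintype (GaloisField p k) := Fintype.ofFinite _
  have hcard : Fintype.card (GaloisField p k) = p ^ k := by
    rw [← Nat.card_eq_fintype_card, GaloisField.card p k (by omega)]
  classical
  rcases hc with rfl | rfl
  · have h4 : Fintype.card (GaloisField p k) % 4 = 1 := by rw [hcard]; omega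
    have h1 : HasHad (4 * (Fintype.card (GaloisField p k) + 2 * Fintype.card (Fin 2))) := by
      rcases he with rfl | rfl
      · exact had_field h4 (roots2 h4) S2.corner_p (by simp)
          (v := v) (by rw [hcard, Fintype.card_fin]; omega) hS
      · exact had_field h4 (roots2 h4) S2.corner_m (by simp)
          (v := v) (by rw [hcard, Fintype.card_fin]; omega) hS
    rwa [hcard, Fintype.card_fin] at h1
  · have h8 : Fintype.card (GaloisField p k) % 8 = 1 := by rw [hcard]; omega
    have h4 : Fintype.card (GaloisField p k) % 4 = 1 := by omega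
    obtain ⟨w, hw⟩ : IsSquare (-1 : GaloisField p k) := by
      rw [FiniteField.isSquare_neg_one_iff]; omega
    have h1 : HasHad (4 * (Fintype.card (GaloisField p k) + 2 * Fintype.card (Fin 4))) := by
      rcases he with rfl | rfl
      · exact had_field h4 (roots4 h8 hw.symm) S4.corner_p (by simp)
          (v := v) (by rw [hcard, Fintype.card_fin]; omega) hS
      · exact had_field h4 (roots4 h8 hw.symm) S4.corner_m (by simp)
          (v := v) (by rw [hcard, Fintype.card_fin]; omega) hS
    rwa [hcard, Fintype.card_fin] at h1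

/-- three sufficient conditions -/
theorem main : ∃ C : ℕ, ∀ q v c : ℕ, (c = 4 ∨ c = 8) → IsPrimePow q → q = c * v + 1 →
    ((∃ (e : ℤ) (W : Fin (v + 2) → Fin (v + 2) → ℤ), (e = 1 ∨ e = -1) ∧ IsConf e W) ∨
      (Even v ∧ IsPrimePow (v + 1)) ∨
      (∃ n t : ℕ, q ≤ tow n ∧ 2 ^ C ^ (n + 1) ≤ t ∧ 2 ^ t ∣ v + 2)) →
    HasHad (4 * (q + c)) := by
  obtain ⟨C, hC, h⟩ := Pool.Agent.Y342.SK.main_skew
  refine ⟨C, fun q v c hc hq hv hyp => ?_⟩
  rcases hyp with ⟨e, W, he, hW⟩ | ⟨hev, hpp⟩ | ⟨n, t, hqn, ht, hd⟩
  · exact main_conf hc hq hv he hW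
  · obtain ⟨e, W, he, hW⟩ := exists_paley (Nat.even_iff.1 hev) hpp
    exact main_conf hc hq hv he hW
  · obtain ⟨k, hk⟩ := hd
    have hk0 : 0 < k := by
      rcases Nat.eq_zero_or_pos k with h0 | h0
      · rw [h0] at hk; omega
      · exact h0
    have h1t : 1 ≤ t := le_trans Nat.one_le_two_pow ht
    have h2 : 2 ≤ 2 ^ t := by
      calc 2 = 2 ^ 1 := by norm_num
        _ ≤ 2 ^ t := Nat.pow_le_pow_right (by norm_num) h1t
    have hkv : 2 * k ≤ v + 2 := by rw [hk]; exact Nat.mul_le_mul_right k h2
    have hkq : k ≤ q := by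
      have := hq.one_lt
      rcases hc with rfl | rfl <;> omega
    have h3 := h n k t hk0 (hkq.trans hqn) ht
    rw [← hk] at h3
    obtain ⟨W, hW⟩ := conf_of_skewC h3
    exact main_conf hc hq hv (Or.inr rfl) hW

end Pool.Agent.Helper82.QC
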