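import Pool.Agent.Helper82.QC.Block

/-!
# The corners for `s = 2`

The border vectors are sign combinations of four vectors of an orthogonal basis; the 5 blocks of
four vectors and the matrix `K` form a tournament design. All conditions are checked by the kernel.
-/

set_option autoImplicit false

namespace Pool.Agent.Helper82.QC.S2

open Finset

/-- sign from a bit -/
def nb (N i : ℕ) : ℤ := if N.testBit i then -1 else 1

/-- the Hadamard matrix of order 4 in `K` -/
def nN : ℕ := 22268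

/-- the places of the nonzero entries of `Y` and `Y'` -/
def nM : ℕ := 4427218594182982533360

/-- signs of `Y` -/
def nY : ℕ := 2066035348350111318240

/-- signs of `Y'` -/
def nY' : ℕ := 1770887444270266974208

/-- signs of `F true` -/
def nF1 : ℕ := 685247131930334377942475606916284766083556118785

/-- signs of `F false` -/
def nF2 : ℕ := 685267467203724844183044354689891331836718738945

/-- signs of `F' true` -/
def nG1 : ℕ := 856558013057413926670515396912287374519683776512

/-- signs of `F' false` -/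
def nG2 : ℕ := 856496027221845030714766893514244696010790076160

/-- signs of the corner, skew case -/
def nPm : ℕ := 995986186567383654333002732781517016637740205249601671791934659926794463008587872107614283477780023011448909125938755359

/-- signs of the corner, symmetric case -/
def nPp : ℕ := 1102529109714983097534269534197318489888621187142157752964509902096262325557219393422280757374706740379069907340004079391

/-- the matrix `K` -/
def K (e : ℤ) (p p' : Fin 2 × Fin 4) : ℤ :=
  if p.2.val < 2 then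
    (if p'.2.val < 2 then 0 else
      nb nN ((p.2.val * 2 + p.1.val) * 4 + ((p'.2.val - 2) * 2 + p'.1.val)))
  else
    (if p'.2.val < 2 then
      - e * nb nN ((p'.2.val * 2 + p'.1.val) * 4 + ((p.2.val - 2) * 2 + p.1.val))
    else 0)

/-- the first circulant -/
def d1 : Fin 2 → ℤ := ![1, 1]

/-- the second circulant -/
def d2 : Fin 2 → ℤ := ![1, -1]

/-- border columns, even part -/
def F (r : Bool) (p : Fin 2 × Fin 4) (z : Fin 20) : ℤ :=
  if nM.testBit (p.2.val * 20 + z.val) then 0 else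
    nb (if r then nF1 else nF2) ((p.1.val * 4 + p.2.val) * 20 + z.val)

/-- border columns, odd part -/
def Y (x : Fin 4) (z : Fin 20) : ℤ :=
  if nM.testBit (x.val * 20 + z.val) then nb nY (x.val * 20 + z.val) else 0

/-- border rows, even part -/
def F' (r : Bool) (p : Fin 2 × Fin 4) (z : Fin 20) : ℤ :=
  if nM.testBit (p.2.val * 20 + z.val) then 0 else
    nb (if r then nG1 else nG2) ((p.1.val * 4 + p.2.val) * 20 + z.val)

/-- border rows, odd part -/
def Y' (x : Fin 4) (z : Fin 20) : ℤ :=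
  if nM.testBit (x.val * 20 + z.val) then nb nY' (x.val * 20 + z.val) else 0

/-- the corner, skew case -/
def Pm (i j : Fin 20) : ℤ := nb nPm (i.val * 20 + j.val)

/-- the corner, symmetric case -/
def Pp (i j : Fin 20) : ℤ := nb nPp (i.val * 20 + j.val)

set_option maxRecDepth 100000

theorem nb_sign (N i : ℕ) : nb N i = 1 ∨ nb N i = -1 := by
  unfold nb; split_ifs <;> simp

theorem card_eq : ((Fintype.card (Fin 2) : ℕ) : ℤ) = 2 := by simp

theorem Ks_m : ∀ p p' : Fin 2 × Fin 4, K (-1) p' p = - (-1) * K (-1) p p' := by decide +kernel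
theorem KK_m : ∀ p p' : Fin 2 × Fin 4, ∑ z, K (-1) p z * K (-1) p' z =
    if p = p' then 2 * 2 else 0 := by decide +kernel
theorem Kd_m : ∀ p p' : Fin 2 × Fin 4, jj p.2 p'.2 = 0 → kk p.2 p'.2 = 0 → K (-1) p p' = 0 := by
  decide +kernel
theorem Ke_m : ∀ p p' : Fin 2 × Fin 4, (jj p.2 p'.2 ≠ 0 ∨ kk p.2 p'.2 ≠ 0) →
    (K (-1) p p' = 1 ∨ K (-1) p p' = -1) := by decide +kernel
theorem PP_m : ∀ i j : Fin 20, ∑ z, Pm i z * Pm j z =
    if i = j then 8 * 2 + 4 else 0 := by decide +kernel
theorem PF_m : ∀ (i : Fin 20) (r : Bool) (p : Fin 2 × Fin 4), ∑ z, Pm i z * F r p z +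
    ∑ p', (- (-1) * kb r * (F' true p' i + F' false p' i) -
    (F' true p' i - F' false p' i)) * K (-1) p p' + 2 * F' r p i = 0 := by decide +kernel
theorem PY_m : ∀ (i : Fin 20) (x : Fin 4), ∑ z, Pm i z * Y x z + 2 * ∑ x', Y' x' i *
    (- de x x' + 2 * jj x x' + 0 * kk x x') = 0 := by decide +kernel

theorem Ks_p : ∀ p p' : Fin 2 × Fin 4, K 1 p' p = - 1 * K 1 p p' := by decide +kernel
theorem KK_p : ∀ p p' : Fin 2 × Fin 4, ∑ z, K 1 p z * K 1 p' z =
    if p = p' then 2 * 2 else 0 := by decide +kernel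
theorem Kd_p : ∀ p p' : Fin 2 × Fin 4, jj p.2 p'.2 = 0 → kk p.2 p'.2 = 0 → K 1 p p' = 0 := by
  decide +kernel
theorem Ke_p : ∀ p p' : Fin 2 × Fin 4, (jj p.2 p'.2 ≠ 0 ∨ kk p.2 p'.2 ≠ 0) →
    (K 1 p p' = 1 ∨ K 1 p p' = -1) := by decide +kernel
theorem PP_p : ∀ i j : Fin 20, ∑ z, Pp i z * Pp j z =
    if i = j then 8 * 2 + 4 else 0 := by decide +kernel
theorem PF_p : ∀ (i : Fin 20) (r : Bool) (p : Fin 2 × Fin 4), ∑ z, Pp i z * F r p z +
    ∑ p', (- 1 * kb r * (F' true p' i + F' false p' i) -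
    (F' true p' i - F' false p' i)) * K 1 p p' + 2 * F' r p i = 0 := by decide +kernel
theorem PY_p : ∀ (i : Fin 20) (x : Fin 4), ∑ z, Pp i z * Y x z + 2 * ∑ x', Y' x' i *
    (- de x x' + 2 * jj x x' + 0 * kk x x') = 0 := by decide +kernel

theorem d1e : ∀ t : Fin 2, d1 (-t) = d1 t := by decide
theorem d2e : ∀ t : Fin 2, d2 (-t) = d2 t := by decide
theorem d1s : ∀ t : Fin 2, d1 t = 1 ∨ d1 t = -1 := by decide
theorem d2s : ∀ t : Fin 2, d2 t = 1 ∨ d2 t = -1 := by decide
theorem dd : ∀ a a' : Fin 2, ∑ z, d1 (z - a) * d1 (z - a') + ∑ z, d2 (z - a) * d2 (z - a') =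
    if a = a' then 2 * 2 else 0 := by decide +kernel
theorem d1r : ∑ t : Fin 2, d1 t = 2 := by decide
theorem d2r : ∑ t : Fin 2, d2 t = 0 := by decide

theorem F1 (r : Bool) (p : Fin 2 × Fin 4) (z : Fin 20) :
    (F r p z + Y p.2 z = 1 ∨ F r p z + Y p.2 z = -1) ∧
    (F r p z - Y p.2 z = 1 ∨ F r p z - Y p.2 z = -1) := by
  unfold F Y
  have h1 := nb_sign (if r then nF1 else nF2) ((p.1.val * 4 + p.2.val) * 20 + z.val)
  have h2 := nb_sign nY (p.2.val * 20 + z.val)
  split_ifs
  all_goals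
    rcases h1 with h1 | h1 <;> rcases h2 with h2 | h2 <;> simp_all

theorem F1' (r : Bool) (p : Fin 2 × Fin 4) (z : Fin 20) :
    (F' r p z + Y' p.2 z = 1 ∨ F' r p z + Y' p.2 z = -1) ∧
    (F' r p z - Y' p.2 z = 1 ∨ F' r p z - Y' p.2 z = -1) := by
  unfold F' Y'
  have h1 := nb_sign (if r then nG1 else nG2) ((p.1.val * 4 + p.2.val) * 20 + z.val)
  have h2 := nb_sign nY' (p.2.val * 20 + z.val)
  split_ifs
  all_goals
    rcases h1 with h1 | h1 <;> rcases h2 with h2 | h2 <;> simp_all

theorem FF : ∀ (r : Bool) (p : Fin 2 × Fin 4) (r' : Bool) (p' : Fin 2 × Fin 4),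
    ∑ z, F r p z * F r' p' z = if r = r' ∧ p = p' then 8 * 2 else 0 := by decide +kernel
theorem FY : ∀ (r : Bool) (p : Fin 2 × Fin 4) (x : Fin 4), ∑ z, F r p z * Y x z = 0 := by
  decide +kernel
theorem YY : ∀ x x' : Fin 4, ∑ z, Y x z * Y x' z = if x = x' then 4 else 0 := by decide +kernel
theorem bord : ∀ i j : Fin 20,
    ∑ p, (F' true p i * F' true p j + F' false p i * F' false p j) +
    2 * 2 * ∑ x, Y' x i * Y' x j = if i = j then 8 * 2 else 0 := by decide +kernel

/-- the corner, skew case -/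
def corner_m : Corner (Fin 2) 20 (-1) where
  K := K (-1)
  d1 := d1
  d2 := d2
  g1 := 2
  g2 := 0
  F := F
  Y := Y
  F' := F'
  Y' := Y'
  P := Pm
  he := by norm_num
  Ks := Ks_m
  KK := fun p p' => by rw [card_eq]; exact KK_m p p'
  Kd := Kd_m
  Ke := Ke_m
  d1e := d1e
  d2e := d2e
  d1s := d1s
  d2s := d2s
  dd := fun a a' => by rw [card_eq]; exact dd a a'
  d1r := d1r
  d2r := d2r
  P1 := fun i j => nb_sign _ _
  F1 := F1
  F1' := F1'
  FF := fun r p r' p' => by rw [card_eq]; exact FF r p r' p'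
  FY := FY
  YY := YY
  PP := fun i j => by rw [card_eq]; exact PP_m i j
  bord := fun i j => by rw [card_eq]; exact bord i j
  PF := PF_m
  PY := PY_m

/-- the corner, symmetric case -/
def corner_p : Corner (Fin 2) 20 1 where
  K := K 1
  d1 := d1
  d2 := d2
  g1 := 2
  g2 := 0
  F := F
  Y := Y
  F' := F'
  Y' := Y'
  P := Pp
  he := by norm_num
  Ks := Ks_p
  KK := fun p p' => by rw [card_eq]; exact KK_p p p'
  Kd := Kd_p
  Ke := Ke_p
  d1e := d1e
  d2e := d2e
  d1s := d1s
  d2s := d2s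
  dd := fun a a' => by rw [card_eq]; exact dd a a'
  d1r := d1r
  d2r := d2r
  P1 := fun i j => nb_sign _ _
  F1 := F1
  F1' := F1'
  FF := fun r p r' p' => by rw [card_eq]; exact FF r p r' p'
  FY := FY
  YY := YY
  PP := fun i j => by rw [card_eq]; exact PP_p i j
  bord := fun i j => by rw [card_eq]; exact bord i j
  PF := PF_p
  PY := PY_p

end Pool.Agent.Helper82.QC.S2
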